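import Mathlib

/-!
# Shortest dense curves on convex surfaces

For every convex body `K` in Euclidean 3-space with boundary surface `S` of area `A`, the infimum
`L(ε)` of the lengths of the `ε`-dense rectifiable curves on `S` satisfies `ε * L(ε) → A / 2` as
`ε → 0+`.  Distances on `S` are intrinsic.

Upper bound: enclose `K` in a polytope `P` of almost the same area. The nearest point projection
onto `K` maps the plane of every face of `P` into `S`, does not increase lengths, and the images of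
the faces cover `S`. So zigzags in squares covering the faces give dense curves on `S`.

Lower bound: choose a polytope `P` inside `K` of almost the same area and project a dense curve of
`S` to the boundary of `P`. Cut the projected curve into arcs of a fixed small size. Near the
points of a face far from the other faces an arc is a plane curve, and the `ε`-neighbourhood of a
plane curve of length `ℓ` has area at most `2 ε ℓ + π ε ^ 2`.
-/

open MeasureTheory Set Filter Topology
open scoped ENNReal NNReal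

namespace Pool.Agent.Results.MP_523900_gt.Limit

/-- Euclidean 3-space. -/
abbrev E3 := EuclideanSpace ℝ (Fin 3)

/-- `γ` restricted to `[0,1]` is a continuous path lying in `S`. -/
def IsPathIn (S : Set E3) (γ : ℝ → E3) : Prop :=
  ContinuousOn γ (Icc 0 1) ∧ ∀ t ∈ Icc (0 : ℝ) 1, γ t ∈ S

/-- Length of the path `γ` on `[0,1]` (supremum of lengths of inscribed polygons). -/
noncomputable def pathLength (γ : ℝ → E3) : ℝ≥0∞ := eVariationOn γ (Icc 0 1)

/-- Intrinsic distance on `S`: infimum of the lengths of the paths in `S` from `x` to `y`. -/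
noncomputable def intrinsicDist (S : Set E3) (x y : E3) : ℝ≥0∞ :=
  ⨅ (γ : ℝ → E3) (_ : IsPathIn S γ ∧ γ 0 = x ∧ γ 1 = y), pathLength γ

/-- `γ` is a rectifiable path in `S` which is `ε`-dense for the intrinsic distance of `S`. -/
def IsDenseCurve (S : Set E3) (ε : ℝ) (γ : ℝ → E3) : Prop :=
  IsPathIn S γ ∧ pathLength γ < ⊤ ∧
    ∀ x ∈ S, ∃ t ∈ Icc (0 : ℝ) 1, intrinsicDist S x (γ t) ≤ ENNReal.ofReal ε

/-- The infimum of the lengths of the `ε`-dense rectifiable curves on `S`. -/
noncomputable def shortestDense (S : Set E3) (ε : ℝ) : ℝ≥0∞ :=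
  ⨅ (γ : ℝ → E3) (_ : IsDenseCurve S ε γ), pathLength γ

/-! ### Nearest point projection -/

section proj

variable {V : Type*} [NormedAddCommGroup V] [InnerProductSpace ℝ V]

/-- A map is the nearest point projection onto `K`. -/
def IsProj (K : Set V) (p : V → V) : Prop :=
  ∀ x, p x ∈ K ∧ ∀ y ∈ K, inner ℝ (x - p x) (y - p x) ≤ 0

theorem exists_isProj [CompleteSpace V] {K : Set V} (hK : Convex ℝ K) (hc : IsClosed K)
    (hne : K.Nonempty) : ∃ p, IsProj K p := by
  have h : ∀ x : V, ∃ v ∈ K, ∀ y ∈ K, inner ℝ (x - v) (y - v) ≤ 0 := by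
    intro x
    obtain ⟨v, hv, hv'⟩ := exists_norm_eq_iInf_of_complete_convex hne hc.isComplete hK x
    exact ⟨v, hv, (norm_eq_iInf_iff_real_inner_le_zero hK hv).1 hv'⟩
  choose p hp hp' using h
  exact ⟨p, fun x => ⟨hp x, hp' x⟩⟩

theorem IsProj.lipschitz {K : Set V} {p : V → V} (hp : IsProj K p) : LipschitzWith 1 p := by
  apply LipschitzWith.of_dist_le_mul
  intro x y
  rw [NNReal.coe_one, one_mul, dist_eq_norm, dist_eq_norm]
  have h1 := (hp x).2 (p y) (hp y).1
  have h2 := (hp y).2 (p x) (hp x).1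
  have key : ‖p x - p y‖ ^ 2 ≤ inner ℝ (x - y) (p x - p y) := by
    rw [← real_inner_self_eq_norm_sq]
    have e : inner ℝ (x - y) (p x - p y) - inner ℝ (p x - p y) (p x - p y)
        = -(inner ℝ (x - p x) (p y - p x)) - inner ℝ (y - p y) (p x - p y) := by
      simp only [inner_sub_left, inner_sub_right]
      ring
    linarith
  have h3 := real_inner_le_norm (x - y) (p x - p y)
  by_cases h0 : ‖p x - p y‖ = 0
  · rw [h0]; positivity
  · have : 0 < ‖p x - p y‖ := lt_of_le_of_ne (norm_nonneg _) (Ne.symm h0)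
    nlinarith

theorem IsProj.eq_of {K : Set V} {p : V → V} (hp : IsProj K p) {x v : V} (hv : v ∈ K)
    (h : ∀ y ∈ K, inner ℝ (x - v) (y - v) ≤ 0) : p x = v := by
  have h1 := (hp x).2 v hv
  have h2 := h (p x) (hp x).1
  have e : inner ℝ (v - p x) (v - p x) = inner ℝ (x - p x) (v - p x) + inner ℝ (x - v) (p x - v) := by
    simp only [inner_sub_left, inner_sub_right]
    ring
  have h3 : inner ℝ (v - p x) (v - p x) ≤ 0 := by linarith
  have h4 : v - p x = 0 := by
    rw [real_inner_self_eq_norm_sq] at h3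
    have : ‖v - p x‖ = 0 := by nlinarith [norm_nonneg (v - p x)]
    exact norm_eq_zero.1 this
  exact (sub_eq_zero.1 h4).symm

theorem IsProj.eq_self {K : Set V} {p : V → V} (hp : IsProj K p) {x : V} (hx : x ∈ K) :
    p x = x := hp.eq_of hx (by simp)

/-- Points outside the interior project to the boundary. -/
theorem IsProj.mem_frontier {K : Set V} {p : V → V} (hp : IsProj K p) (hc : IsClosed K) {x : V}
    (hx : x ∉ interior K) : p x ∈ frontier K := by
  rw [hc.frontier_eq]
  refine ⟨(hp x).1, fun hi => hx ?_⟩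
  have : x = p x := by
    by_contra hne
    have hne' : x - p x ≠ 0 := sub_ne_zero.2 hne
    have hcont : Tendsto (fun s : ℝ => p x + s • (x - p x)) (𝓝[>] 0) (𝓝 (p x)) := by
      have : Continuous (fun s : ℝ => p x + s • (x - p x)) := by fun_prop
      have h := this.tendsto 0
      simp only [zero_smul, add_zero] at h
      exact h.mono_left nhdsWithin_le_nhds
    have hev := hcont.eventually (mem_interior_iff_mem_nhds.1 hi)
    obtain ⟨s, hs, hs0⟩ := (hev.and self_mem_nhdsWithin).exists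
    have h1 := (hp x).2 _ hs
    rw [add_sub_cancel_left, inner_smul_right] at h1
    have h2 : 0 < inner ℝ (x - p x) (x - p x) := by
      rw [real_inner_self_eq_norm_sq]; positivity
    have hs0' : 0 < s := hs0
    nlinarith
  rw [this]; exact hi

/-- Supporting half-space at a boundary point. -/
theorem exists_support {K : Set V} [CompleteSpace V] (hK : Convex ℝ K) (hc : IsClosed K)
    (hne : (interior K).Nonempty)
    {y : V} (hy : y ∈ frontier K) : ∃ u : V, ‖u‖ = 1 ∧ ∀ z ∈ K, inner ℝ u (z - y) ≤ 0 := by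
  have hy' : y ∉ interior K := by
    rw [hc.frontier_eq] at hy; exact hy.2
  obtain ⟨f, hf⟩ := geometric_hahn_banach_open_point hK.interior isOpen_interior hy'
  obtain ⟨z0, hz0⟩ := hne
  set w := (InnerProductSpace.toDual ℝ V).symm f with hw
  have hfw : ∀ z, f z = inner ℝ w z := by
    intro z
    rw [hw, InnerProductSpace.toDual_symm_apply]
  have hw0 : w ≠ 0 := by
    intro h0
    have := hf z0 hz0
    rw [hfw, hfw, h0] at this
    simp at this
  have hle : ∀ z ∈ K, f z ≤ f y := by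
    intro z hz
    have hz' : z ∈ closure (interior K) := by
      rw [hK.closure_interior_eq_closure_of_nonempty_interior ⟨z0, hz0⟩]
      exact subset_closure hz
    have : closure (interior K) ⊆ {z | f z ≤ f y} := by
      apply closure_minimal
      · intro a ha; exact (hf a ha).le
      · exact isClosed_le f.continuous continuous_const
    exact this hz'
  refine ⟨‖w‖⁻¹ • w, ?_, ?_⟩
  · rw [norm_smul, norm_inv, norm_norm, inv_mul_cancel₀ (norm_ne_zero_iff.2 hw0)]
  · intro z hz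
    have := hle z hz
    rw [hfw, hfw] at this
    rw [inner_smul_left, inner_sub_right]
    simp only [conj_trivial]
    have h0 : 0 < ‖w‖⁻¹ := by positivity
    exact mul_nonpos_of_nonneg_of_nonpos h0.le (by linarith)

theorem inter_frontier_nonempty {X : Type*} [TopologicalSpace X] {s t : Set X}
    (hs : IsPreconnected s) (h1 : (s ∩ t).Nonempty) (h2 : (s ∩ tᶜ).Nonempty) :
    (s ∩ frontier t).Nonempty := by
  by_contra hcon
  rw [not_nonempty_iff_eq_empty] at hcon
  have hnot : ∀ x ∈ s, x ∉ frontier t := fun x hx hf => by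
    have : x ∈ s ∩ frontier t := ⟨hx, hf⟩
    rw [hcon] at this; exact this
  obtain ⟨a, ha, hat⟩ := h1
  obtain ⟨b, hb, hbt⟩ := h2
  have hcov : s ⊆ interior t ∪ (closure t)ᶜ := by
    intro x hx
    by_cases hxc : x ∈ closure t
    · left
      by_contra hxi
      exact hnot x hx ⟨hxc, hxi⟩
    · right; exact hxc
  have hA : (s ∩ interior t).Nonempty := by
    refine ⟨a, ha, ?_⟩
    rcases hcov ha with h | h
    · exact h
    · exact absurd (subset_closure hat) h
  have hB : (s ∩ (closure t)ᶜ).Nonempty := by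
    refine ⟨b, hb, ?_⟩
    rcases hcov hb with h | h
    · exact absurd (interior_subset h) hbt
    · exact h
  obtain ⟨x, hx, hx1, hx2⟩ := hs _ _ isOpen_interior isClosed_closure.isOpen_compl hcov hA hB
  exact hx2 (subset_closure (interior_subset hx1))

/-- If `K ⊆ C` with `C` bounded, the boundary of `K` is covered by the projection of that of `C`. -/
theorem frontier_subset_image {K C : Set V} [CompleteSpace V] {p : V → V} (hp : IsProj K p)
    (hK : Convex ℝ K) (hc : IsClosed K) (hne : (interior K).Nonempty)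
    (hKC : K ⊆ C) (hC : Bornology.IsBounded C) : frontier K ⊆ p '' (frontier C) := by
  intro y hy
  obtain ⟨u, hu, hsup⟩ := exists_support hK hc hne hy
  have hyK : y ∈ K := by rw [hc.frontier_eq] at hy; exact hy.1
  -- the ray
  set R : Set V := (fun t : ℝ => y + t • u) '' Ici 0 with hR
  have hRc : IsPreconnected R := by
    apply IsPreconnected.image isPreconnected_Ici
    fun_prop
  have h1 : (R ∩ C).Nonempty := ⟨y, ⟨0, by simp, by simp⟩, hKC hyK⟩
  have h2 : (R ∩ Cᶜ).Nonempty := by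
    obtain ⟨r, hr⟩ := hC.subset_closedBall y
    refine ⟨y + (|r| + 1) • u, ⟨|r| + 1, by simp; positivity, rfl⟩, ?_⟩
    intro hmem
    have := hr hmem
    rw [Metric.mem_closedBall, dist_eq_norm, add_sub_cancel_left, norm_smul, hu, mul_one,
      Real.norm_eq_abs] at this
    have h3 := le_abs_self (|r| + 1)
    have h4 := le_abs_self r
    linarith
  obtain ⟨z, ⟨t, ht, rfl⟩, hz⟩ := inter_frontier_nonempty hRc h1 h2
  refine ⟨_, hz, ?_⟩
  apply hp.eq_of hyK
  intro k hk
  rw [add_sub_cancel_left, inner_smul_left]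
  simp only [conj_trivial]
  exact mul_nonpos_of_nonneg_of_nonpos ht (hsup k hk)

end proj

/-! ### Polytopes given by finitely many half-spaces -/

/-- The polyhedron with outer unit normals and offsets listed in `T`. -/
def polyP (T : Finset (E3 × ℝ)) : Set E3 := {x | ∀ q ∈ T, inner ℝ q.1 x ≤ q.2}

/-- The face of the polyhedron lying in the plane of `q`. -/
def face (T : Finset (E3 × ℝ)) (q : E3 × ℝ) : Set E3 := {x | x ∈ polyP T ∧ inner ℝ q.1 x = q.2}

theorem polyP_closed (T : Finset (E3 × ℝ)) : IsClosed (polyP T) := by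
  have : polyP T = ⋂ q ∈ T, {x | inner ℝ q.1 x ≤ q.2} := by
    ext x; simp [polyP]
  rw [this]
  exact isClosed_biInter fun q _ => isClosed_le (by fun_prop) continuous_const

theorem polyP_convex (T : Finset (E3 × ℝ)) : Convex ℝ (polyP T) := by
  intro x hx y hy a b ha hb hab q hq
  have h1 := hx q hq
  have h2 := hy q hq
  rw [inner_add_right, inner_smul_right, inner_smul_right]
  calc a * inner ℝ q.1 x + b * inner ℝ q.1 y ≤ a * q.2 + b * q.2 := by
        gcongr
    _ = q.2 := by rw [← add_mul, hab, one_mul]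

theorem face_closed (T : Finset (E3 × ℝ)) (q : E3 × ℝ) : IsClosed (face T q) :=
  (polyP_closed T).inter (isClosed_eq (by fun_prop) continuous_const)

theorem frontier_polyP_subset (T : Finset (E3 × ℝ)) :
    frontier (polyP T) ⊆ ⋃ q ∈ T, face T q := by
  intro x hx
  rw [(polyP_closed T).frontier_eq] at hx
  by_contra hcon
  simp only [mem_iUnion, not_exists] at hcon
  apply hx.2
  have hopen : IsOpen (⋂ q ∈ T, {x : E3 | inner ℝ q.1 x < q.2}) :=
    isOpen_biInter_finset fun q _ => isOpen_lt (by fun_prop) continuous_const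
  rw [mem_interior]
  refine ⟨_, ?_, hopen, ?_⟩
  · intro y hy
    simp only [mem_iInter, mem_ofPred_eq] at hy
    intro q hq
    exact (hy q hq).le
  · simp only [mem_iInter, mem_ofPred_eq]
    intro q hq
    refine lt_of_le_of_ne (hx.1 q hq) fun h => hcon q hq ⟨hx.1, h⟩

theorem not_mem_interior_of_plane {K : Set E3} {u : E3} {b : ℝ} (hu : ‖u‖ = 1)
    (hK : ∀ x ∈ K, inner ℝ u x ≤ b) {x : E3} (hx : inner ℝ u x = b) : x ∉ interior K := by
  intro hi
  have hcont : Tendsto (fun s : ℝ => x + s • u) (𝓝[>] 0) (𝓝 x) := by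
    have : Continuous (fun s : ℝ => x + s • u) := by fun_prop
    have h := this.tendsto 0
    simp only [zero_smul, add_zero] at h
    exact h.mono_left nhdsWithin_le_nhds
  have hev := hcont.eventually (mem_interior_iff_mem_nhds.1 hi)
  obtain ⟨s, hs, hs0⟩ := (hev.and self_mem_nhdsWithin).exists
  have hs0' : 0 < s := hs0
  have h1 := hK _ hs
  rw [inner_add_right, inner_smul_right, hx, real_inner_self_eq_norm_sq, hu] at h1
  linarith

theorem face_subset_frontier {T : Finset (E3 × ℝ)} {q : E3 × ℝ} (hq : q ∈ T) (hu : ‖q.1‖ = 1) :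
    face T q ⊆ frontier (polyP T) := by
  intro x hx
  rw [(polyP_closed T).frontier_eq]
  exact ⟨hx.1, not_mem_interior_of_plane (K := polyP T) hu (fun y hy => hy q hq) hx.2⟩

theorem frontier_polyP_eq {T : Finset (E3 × ℝ)} (hT : ∀ q ∈ T, ‖q.1‖ = 1) :
    frontier (polyP T) = ⋃ q ∈ T, face T q := by
  apply (frontier_polyP_subset T).antisymm
  intro x hx
  simp only [mem_iUnion] at hx
  obtain ⟨q, hq, hx⟩ := hx
  exact face_subset_frontier hq (hT q hq) hx

/-- Separation of a compact convex set from the boundary of a neighbourhood by a polyhedron. -/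
theorem exists_polyP {D C : Set E3} (hD : Convex ℝ D) (hDc : IsCompact D) (hDne : D.Nonempty)
    (hC : IsCompact C) (hDC : D ⊆ interior C) :
    ∃ T : Finset (E3 × ℝ), (∀ q ∈ T, ‖q.1‖ = 1) ∧ D ⊆ polyP T ∧ polyP T ⊆ interior C := by
  classical
  have hsep : ∀ x : E3, x ∈ frontier C → ∃ q : E3 × ℝ, ‖q.1‖ = 1 ∧ (∀ a ∈ D, inner ℝ q.1 a ≤ q.2) ∧
      q.2 < inner ℝ q.1 x := by
    intro x hx
    have hxD : x ∉ D := fun h => hx.2 (hDC h)
    obtain ⟨f, s, hfs, hsx⟩ := geometric_hahn_banach_closed_point hD hDc.isClosed hxD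
    set w := (InnerProductSpace.toDual ℝ E3).symm f with hw
    have hfw : ∀ z, f z = inner ℝ w z := by
      intro z
      rw [hw, InnerProductSpace.toDual_symm_apply]
    obtain ⟨d, hd⟩ := hDne
    have hw0 : w ≠ 0 := by
      intro h0
      have := hfs d hd
      rw [hfw, h0] at this
      rw [hfw, h0] at hsx
      simp at this hsx
      linarith
    have hpos : 0 < ‖w‖ := norm_pos_iff.2 hw0
    refine ⟨(‖w‖⁻¹ • w, ‖w‖⁻¹ * s), ?_, ?_, ?_⟩
    · show ‖‖w‖⁻¹ • w‖ = 1
      rw [norm_smul, norm_inv, norm_norm, inv_mul_cancel₀ hpos.ne']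
    · intro a ha
      show inner ℝ (‖w‖⁻¹ • w) a ≤ ‖w‖⁻¹ * s
      rw [inner_smul_left]
      simp only [conj_trivial]
      have := (hfs a ha).le
      rw [hfw] at this
      exact mul_le_mul_of_nonneg_left this (by positivity)
    · show ‖w‖⁻¹ * s < inner ℝ (‖w‖⁻¹ • w) x
      rw [inner_smul_left]
      simp only [conj_trivial]
      rw [hfw] at hsx
      exact mul_lt_mul_of_pos_left hsx (by positivity)
  choose! q hq1 hq2 hq3 using hsep
  have hfc : IsCompact (frontier C) := hC.of_isClosed_subset isClosed_frontier hC.isClosed.frontier_subset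
  obtain ⟨t, ht, hcov⟩ := hfc.elim_nhds_subcover (fun x => {y | (q x).2 < inner ℝ (q x).1 y})
    (fun x hx => (isOpen_lt continuous_const (by fun_prop)).mem_nhds (hq3 x hx))
  refine ⟨t.image q, ?_, ?_, ?_⟩
  · intro p hp
    obtain ⟨x, hx, rfl⟩ := Finset.mem_image.1 hp
    exact hq1 x (ht x hx)
  · intro a ha p hp
    obtain ⟨x, hx, rfl⟩ := Finset.mem_image.1 hp
    exact hq2 x (ht x hx) a ha
  · by_contra hcon
    rw [not_subset] at hcon
    obtain ⟨z, hz, hzC⟩ := hcon
    obtain ⟨d, hd⟩ := hDne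
    have hdP : d ∈ polyP (t.image q) := by
      intro p hp
      obtain ⟨x, hx, rfl⟩ := Finset.mem_image.1 hp
      exact hq2 x (ht x hx) d hd
    obtain ⟨x, hxP, hx⟩ := inter_frontier_nonempty (t := interior C)
      (polyP_convex (t.image q)).isPreconnected ⟨d, hdP, hDC hd⟩ ⟨z, hz, hzC⟩
    have hx' : x ∈ frontier C := frontier_interior_subset hx
    have := hcov hx'
    simp only [mem_iUnion, mem_ofPred_eq] at this
    obtain ⟨y, hy, hlt⟩ := this
    have := hxP (q y) (Finset.mem_image_of_mem q hy)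
    linarith

/-! ### Planes as isometric images of `ℂ` -/

/-- A plane in space is an isometric image of the Euclidean plane `ℂ`. -/
theorem exists_plane_isometry {u : E3} (hu : ‖u‖ = 1) (b : ℝ) :
    ∃ ψ : ℂ →ᵃⁱ[ℝ] E3, range ψ = {x | inner ℝ u x = b} := by
  have hu0 : u ≠ 0 := by
    intro h; rw [h] at hu; simp at hu
  have : Fact (Module.finrank ℝ E3 = 2 + 1) := ⟨by simp⟩
  let B := OrthonormalBasis.fromOrthogonalSpanSingleton (𝕜 := ℝ) 2 hu0
  let e : ℂ ≃ₗᵢ[ℝ] (ℝ ∙ u)ᗮ := Complex.orthonormalBasisOneI.repr.trans B.repr.symm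
  let e' : ℂ →ₗᵢ[ℝ] E3 := (Submodule.subtypeₗᵢ _).comp e.toLinearIsometry
  refine ⟨(AffineIsometryEquiv.constVAdd ℝ E3 (b • u)).toAffineIsometry.comp
    e'.toAffineIsometry, ?_⟩
  have hform : ∀ z, ((AffineIsometryEquiv.constVAdd ℝ E3 (b • u)).toAffineIsometry.comp
    e'.toAffineIsometry) z = b • u + (e z : E3) := fun z => rfl
  ext x
  simp only [mem_range, mem_ofPred_eq]
  constructor
  · rintro ⟨z, rfl⟩
    rw [hform]
    have h := (Submodule.mem_orthogonal_singleton_iff_inner_right (𝕜 := ℝ) (u := u)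
      (v := (e z : E3))).1 (e z).2
    rw [inner_add_right, h, inner_smul_right, real_inner_self_eq_norm_sq, hu]
    ring
  · intro hx
    have hmem : x - b • u ∈ (ℝ ∙ u)ᗮ := by
      rw [Submodule.mem_orthogonal_singleton_iff_inner_right, inner_sub_right, hx,
        inner_smul_right, real_inner_self_eq_norm_sq, hu]
      ring
    refine ⟨e.symm ⟨x - b • u, hmem⟩, ?_⟩
    rw [hform, LinearIsometryEquiv.apply_symm_apply]
    simp

theorem muHE_complex : (μHE[2] : Measure ℂ) = volume := by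
  have h := InnerProductSpace.euclideanHausdorffMeasure_eq_volume (V := ℂ)
  rwa [Complex.finrank_real_complex] at h

theorem muHE_image {ψ : ℂ → E3} (hψ : Isometry ψ) (s : Set ℂ) :
    μHE[2] (ψ '' s) = volume s := by
  rw [hψ.euclideanHausdorffMeasure_image, muHE_complex]

theorem muHE_lipschitz_image {X Y : Type*} [EMetricSpace X] [MeasurableSpace X] [BorelSpace X]
    [EMetricSpace Y] [MeasurableSpace Y] [BorelSpace Y] {f : X → Y} (hf : LipschitzWith 1 f)
    (s : Set X) : μHE[2] (f '' s) ≤ μHE[2] s := by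
  have h := (hf.lipschitzOnWith (s := s)).hausdorffMeasure_image_le (d := 2) (by norm_num)
  simp only [ENNReal.coe_one, ENNReal.one_rpow, one_mul] at h
  rw [Measure.euclideanHausdorffMeasure_def, Measure.euclideanHausdorffMeasure_def,
    Measure.smul_apply, Measure.smul_apply]
  norm_cast
  gcongr

/-- The plane as an affine subspace. -/
def planeSub (q : E3 × ℝ) : AffineSubspace ℝ E3 where
  carrier := {x | inner ℝ q.1 x = q.2}
  smul_vsub_vadd_mem' := by
    intro c p1 p2 p3 h1 h2 h3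
    simp only [mem_ofPred_eq] at h1 h2 h3 ⊢
    simp only [vsub_eq_sub, vadd_eq_add, inner_add_right, inner_smul_right, inner_sub_right, h1,
      h2, h3]
    ring

theorem mem_planeSub (q : E3 × ℝ) (x : E3) : x ∈ planeSub q ↔ inner ℝ q.1 x = q.2 := Iff.rfl

/-- Two distinct bounding planes of a solid polyhedron are not contained in each other. -/
theorem plane_not_subset {T : Finset (E3 × ℝ)} (hT : ∀ q ∈ T, ‖q.1‖ = 1)
    (hne : (interior (polyP T)).Nonempty) {q q' : E3 × ℝ} (hq : q ∈ T) (hq' : q' ∈ T)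
    (hqq : q ≠ q') : ¬ ∀ x, inner ℝ q.1 x = q.2 → inner ℝ q'.1 x = q'.2 := by
  intro hsub
  obtain ⟨x0, hx0⟩ := hne
  have h1 : inner ℝ q.1 x0 < q.2 := by
    refine lt_of_le_of_ne (interior_subset hx0 q hq) fun h => ?_
    exact not_mem_interior_of_plane (K := polyP T) (hT q hq) (fun y hy => hy q hq) h hx0
  have h2 : inner ℝ q'.1 x0 < q'.2 := by
    refine lt_of_le_of_ne (interior_subset hx0 q' hq') fun h => ?_
    exact not_mem_interior_of_plane (K := polyP T) (hT q' hq') (fun y hy => hy q' hq') h hx0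
  have huu : inner ℝ q.1 q.1 = (1 : ℝ) := by rw [real_inner_self_eq_norm_sq, hT q hq]; norm_num
  have huu' : inner ℝ q'.1 q'.1 = (1 : ℝ) := by
    rw [real_inner_self_eq_norm_sq, hT q' hq']; norm_num
  set c : ℝ := inner ℝ q.1 q'.1 with hc
  set d : E3 := q'.1 - c • q.1 with hd
  have hqd : inner ℝ q.1 d = 0 := by
    rw [hd, inner_sub_right, inner_smul_right, huu, ← hc]; ring
  have hp : inner ℝ q.1 (q.2 • q.1) = q.2 := by rw [inner_smul_right, huu]; ring
  have hpd : inner ℝ q.1 (q.2 • q.1 + d) = q.2 := by rw [inner_add_right, hp, hqd]; ring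
  have e1 := hsub _ hp
  have e2 := hsub _ hpd
  rw [inner_add_right, e1] at e2
  have hd0 : inner ℝ q'.1 d = 0 := by linarith
  have hdd : inner ℝ d d = 0 := by
    nth_rw 1 [hd]
    rw [inner_sub_left, hd0, inner_smul_left, hqd]; simp
  have hd00 : d = 0 := inner_self_eq_zero.1 hdd
  have hq'c : q'.1 = c • q.1 := by
    have := hd00
    rw [hd] at this
    exact sub_eq_zero.1 this
  have hcc : c * c = 1 := by
    have := huu'
    rw [hq'c, inner_smul_left, inner_smul_right, huu] at this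
    simpa using this
  have hc1 : c = 1 ∨ c = -1 := mul_self_eq_one_iff.1 hcc
  rcases hc1 with h | h
  · apply hqq
    rw [h, one_smul] at hq'c
    rw [hq'c, hp] at e1
    exact Prod.ext hq'c.symm e1
  · rw [hq'c, h, inner_smul_left] at h2 e1
    rw [hp] at e1
    simp at h2 e1
    linarith

theorem face_inter_null {T : Finset (E3 × ℝ)} (hT : ∀ q ∈ T, ‖q.1‖ = 1)
    (hne : (interior (polyP T)).Nonempty) {q q' : E3 × ℝ} (hq : q ∈ T) (hq' : q' ∈ T)
    (hqq : q ≠ q') : μHE[2] (face T q ∩ face T q') = 0 := by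
  obtain ⟨ψ, hψ⟩ := exists_plane_isometry (hT q hq) q.2
  have hsub : face T q ∩ face T q' ⊆ ψ '' ((planeSub q').comap ψ.toAffineMap : Set ℂ) := by
    rintro x ⟨⟨_, hx1⟩, ⟨_, hx2⟩⟩
    have : x ∈ range ψ := by rw [hψ]; exact hx1
    obtain ⟨z, rfl⟩ := this
    exact ⟨z, hx2, rfl⟩
  refine measure_mono_null hsub ?_
  rw [muHE_image ψ.isometry]
  apply Measure.addHaar_affineSubspace
  intro htop
  apply plane_not_subset hT hne hq hq' hqq
  intro x hx
  have : x ∈ range ψ := by rw [hψ]; exact hx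
  obtain ⟨z, rfl⟩ := this
  have hz : z ∈ (planeSub q').comap ψ.toAffineMap := by rw [htop]; trivial
  exact hz

theorem frontier_polyP_measure {T : Finset (E3 × ℝ)} (hT : ∀ q ∈ T, ‖q.1‖ = 1)
    (hne : (interior (polyP T)).Nonempty) :
    μHE[2] (frontier (polyP T)) = ∑ q ∈ T, μHE[2] (face T q) := by
  rw [frontier_polyP_eq hT, measure_biUnion_finset₀]
  · intro q hq q' hq' hqq
    exact face_inter_null hT hne hq hq' hqq
  · intro q _
    exact (face_closed T q).measurableSet.nullMeasurableSet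


/-! ### Area of neighbourhoods of plane curves -/

theorem lens_aux (d r : ℝ) (hd : 0 ≤ d) (hr : 0 ≤ r) :
    volume (Metric.closedBall (d : ℂ) r \ Metric.closedBall (0 : ℂ) r) ≤
      ENNReal.ofReal (2 * r * d) := by
  set s : ℝ → ℝ := fun b => Real.sqrt (r ^ 2 - b ^ 2) with hs
  set A : Set (ℝ × ℝ) := {p | p.2 ∈ Icc (-r) r ∧ s p.2 < p.1 ∧ p.1 ≤ d + s p.2} with hA
  have hscont : Continuous s := by rw [hs]; fun_prop
  have hAm : MeasurableSet A := by
    have e : A = (Prod.snd ⁻¹' Icc (-r) r) ∩ ({p : ℝ × ℝ | s p.2 < p.1} ∩ {p | p.1 ≤ d + s p.2}) := by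
      ext p; rfl
    rw [e]
    refine (measurable_snd measurableSet_Icc).inter (MeasurableSet.inter ?_ ?_)
    · exact (isOpen_lt (by fun_prop) (by fun_prop)).measurableSet
    · exact (isClosed_le (by fun_prop) (by fun_prop)).measurableSet
  have hsub : Metric.closedBall (d : ℂ) r \ Metric.closedBall (0 : ℂ) r ⊆
      Complex.measurableEquivRealProd ⁻¹' A := by
    rintro z ⟨hz1, hz2⟩
    rw [Metric.mem_closedBall, dist_eq_norm] at hz1
    rw [Metric.mem_closedBall, dist_eq_norm, sub_zero, not_le] at hz2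
    have h1 : (z.re - d) ^ 2 + z.im ^ 2 ≤ r ^ 2 := by
      have : ‖z - d‖ ^ 2 ≤ r ^ 2 := by gcongr
      rw [← Complex.normSq_eq_norm_sq, Complex.normSq_apply] at this
      simp at this
      nlinarith
    have h2 : r ^ 2 < z.re ^ 2 + z.im ^ 2 := by
      have : r ^ 2 < ‖z‖ ^ 2 := by gcongr
      rw [← Complex.normSq_eq_norm_sq, Complex.normSq_apply] at this
      nlinarith
    have h3 : z.im ∈ Icc (-r) r := by
      rw [mem_Icc, ← abs_le]
      apply abs_le_of_sq_le_sq _ hr
      nlinarith [sq_nonneg (z.re - d)]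
    have hrs : 0 ≤ r ^ 2 - z.im ^ 2 := by nlinarith [sq_nonneg (z.re - d)]
    have hss : Real.sqrt (r ^ 2 - z.im ^ 2) ^ 2 = r ^ 2 - z.im ^ 2 := Real.sq_sqrt hrs
    have hs0 := Real.sqrt_nonneg (r ^ 2 - z.im ^ 2)
    have h5 : z.re - d ≤ Real.sqrt (r ^ 2 - z.im ^ 2) := by
      apply Real.le_sqrt_of_sq_le
      linarith
    have h6 : -Real.sqrt (r ^ 2 - z.im ^ 2) ≤ z.re - d := by
      have := Real.abs_le_sqrt (x := z.re - d) (y := r ^ 2 - z.im ^ 2) (by linarith)
      exact (abs_le.1 this).1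
    have h7 : Real.sqrt (r ^ 2 - z.im ^ 2) < z.re := by
      by_contra hcon
      push Not at hcon
      have hb : |z.re| ≤ Real.sqrt (r ^ 2 - z.im ^ 2) := by
        rw [abs_le]; constructor <;> linarith
      have : z.re ^ 2 ≤ Real.sqrt (r ^ 2 - z.im ^ 2) ^ 2 := by
        rw [← sq_abs z.re]; gcongr
      rw [hss] at this
      linarith
    exact ⟨h3, h7, by show z.re ≤ d + Real.sqrt (r ^ 2 - z.im ^ 2); linarith⟩
  calc volume (Metric.closedBall (d : ℂ) r \ Metric.closedBall (0 : ℂ) r)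
      ≤ volume (Complex.measurableEquivRealProd ⁻¹' A) := measure_mono hsub
    _ = volume A := Complex.volume_preserving_equiv_real_prod.measure_preimage
        hAm.nullMeasurableSet
    _ = ∫⁻ b : ℝ, volume ((fun a : ℝ => (a, b)) ⁻¹' A) := by
        rw [Measure.volume_eq_prod, Measure.prod_apply_symm hAm]
    _ ≤ ∫⁻ b : ℝ, (Icc (-r) r).indicator (fun _ => ENNReal.ofReal d) b := by
        apply lintegral_mono
        intro b
        by_cases hb : b ∈ Icc (-r) r
        · rw [indicator_of_mem hb]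
          have : (fun a : ℝ => (a, b)) ⁻¹' A ⊆ Ioc (s b) (d + s b) := by
            rintro a ⟨_, ha⟩
            exact ha
          calc volume ((fun a : ℝ => (a, b)) ⁻¹' A) ≤ volume (Ioc (s b) (d + s b)) :=
                measure_mono this
            _ = ENNReal.ofReal d := by rw [Real.volume_Ioc]; congr 1; ring
        · rw [indicator_of_notMem hb]
          have : (fun a : ℝ => (a, b)) ⁻¹' A = ∅ := by
            ext a
            simp only [mem_preimage, mem_empty_iff_false, iff_false]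
            rintro ⟨h, _⟩
            exact hb h
          show volume ((fun a : ℝ => (a, b)) ⁻¹' A) ≤ 0
          rw [this]; simp
    _ = ENNReal.ofReal d * ENNReal.ofReal (2 * r) := by
        rw [lintegral_indicator measurableSet_Icc, setLIntegral_const, Real.volume_Icc]
        congr 2; ring
    _ = ENNReal.ofReal (2 * r * d) := by
        rw [← ENNReal.ofReal_mul hd]; congr 1; ring

theorem lens (x y : ℂ) {r : ℝ} (hr : 0 ≤ r) :
    volume (Metric.closedBall x r \ Metric.closedBall y r) ≤ ENNReal.ofReal (2 * r * dist x y) := by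
  obtain ⟨c, hc, hxy⟩ : ∃ c : ℂ, ‖c‖ = 1 ∧ x - y = (dist x y : ℝ) * c := by
    by_cases h : x = y
    · exact ⟨1, by simp, by simp [h]⟩
    · have h0 : (‖x - y‖ : ℂ) ≠ 0 := by
        simpa [sub_eq_zero] using h
      refine ⟨(x - y) / ‖x - y‖, ?_, ?_⟩
      · rw [norm_div, Complex.norm_real, norm_norm, div_self]
        exact_mod_cast h0
      · rw [dist_eq_norm]; field_simp
  set f : ℂ → ℂ := fun z => y + c * z with hf
  have hfi : Isometry f := by
    apply Isometry.of_dist_eq
    intro a b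
    rw [hf]
    simp only [dist_add_left]
    rw [dist_eq_norm, dist_eq_norm, ← mul_sub, norm_mul, hc, one_mul]
  have hx : f (dist x y : ℝ) = x := by
    rw [hf]; show y + c * ((dist x y : ℝ) : ℂ) = x
    rw [mul_comm, ← hxy]; ring
  have hy : f 0 = y := by rw [hf]; simp
  have hsub : Metric.closedBall x r \ Metric.closedBall y r ⊆
      f '' (Metric.closedBall ((dist x y : ℝ) : ℂ) r \ Metric.closedBall (0 : ℂ) r) := by
    rintro z ⟨hz1, hz2⟩
    have hc0 : c ≠ 0 := by
      intro h; rw [h] at hc; simp at hc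
    have hz : f ((z - y) / c) = z := by
      rw [hf]; show y + c * ((z - y) / c) = z
      field_simp; ring
    refine ⟨(z - y) / c, ⟨?_, ?_⟩, hz⟩
    · rw [Metric.mem_closedBall, ← hfi.dist_eq, hz, hx]; exact hz1
    · rw [Metric.mem_closedBall, ← hfi.dist_eq, hz, hy]; exact hz2
  calc volume (Metric.closedBall x r \ Metric.closedBall y r)
      ≤ volume (f '' (Metric.closedBall ((dist x y : ℝ) : ℂ) r \ Metric.closedBall (0 : ℂ) r)) :=
        measure_mono hsub
    _ = volume (Metric.closedBall ((dist x y : ℝ) : ℂ) r \ Metric.closedBall (0 : ℂ) r) := by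
        rw [← muHE_complex, hfi.euclideanHausdorffMeasure_image]
    _ ≤ _ := lens_aux _ _ dist_nonneg hr

theorem balls_chain (x : ℕ → ℂ) {r : ℝ} (hr : 0 ≤ r) (n : ℕ) :
    volume (⋃ k ∈ Finset.range (n + 1), Metric.closedBall (x k) r) ≤
      ENNReal.ofReal (2 * r) * ∑ k ∈ Finset.range n, edist (x (k + 1)) (x k)
        + ENNReal.ofReal (Real.pi * r ^ 2) := by
  induction n with
  | zero =>
    simp only [zero_add, Finset.range_one, Finset.mem_singleton, iUnion_iUnion_eq_left,
      Finset.range_zero, Finset.sum_empty, mul_zero]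
    rw [Complex.volume_closedBall]
    rw [mul_comm Real.pi, ENNReal.ofReal_mul (by positivity), ENNReal.ofReal_pow hr]
    gcongr
    rw [← NNReal.coe_real_pi, ENNReal.ofReal_coe_nnreal]
  | succ n ih =>
    have hsub : (⋃ k ∈ Finset.range (n + 1 + 1), Metric.closedBall (x k) r) ⊆
        (⋃ k ∈ Finset.range (n + 1), Metric.closedBall (x k) r) ∪
        (Metric.closedBall (x (n + 1)) r \ Metric.closedBall (x n) r) := by
      intro z hz
      simp only [mem_iUnion, Finset.mem_range] at hz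
      obtain ⟨k, hk, hz⟩ := hz
      by_cases hkn : k < n + 1
      · left
        simp only [mem_iUnion, Finset.mem_range]
        exact ⟨k, hkn, hz⟩
      · have hk' : k = n + 1 := by omega
        subst hk'
        by_cases hzn : z ∈ Metric.closedBall (x n) r
        · left
          simp only [mem_iUnion, Finset.mem_range]
          exact ⟨n, by omega, hzn⟩
        · right
          exact ⟨hz, hzn⟩
    calc volume (⋃ k ∈ Finset.range (n + 1 + 1), Metric.closedBall (x k) r)
        ≤ volume (⋃ k ∈ Finset.range (n + 1), Metric.closedBall (x k) r) +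
          volume (Metric.closedBall (x (n + 1)) r \ Metric.closedBall (x n) r) :=
          (measure_mono hsub).trans (measure_union_le _ _)
      _ ≤ (ENNReal.ofReal (2 * r) * ∑ k ∈ Finset.range n, edist (x (k + 1)) (x k)
        + ENNReal.ofReal (Real.pi * r ^ 2)) + ENNReal.ofReal (2 * r) * edist (x (n + 1)) (x n) := by
          gcongr
          refine (lens _ _ hr).trans ?_
          rw [edist_dist, ← ENNReal.ofReal_mul (by positivity)]
      _ = _ := by
          rw [Finset.sum_range_succ]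
          ring

/-- The closed `ε`-neighbourhood of `γ([s,t])`. -/
def nbd {X : Type*} [PseudoMetricSpace X] (γ : ℝ → X) (s t ε : ℝ) : Set X :=
  {z | ∃ τ ∈ Icc s t, dist z (γ τ) ≤ ε}

/-- Area of the neighbourhood of a rectifiable plane curve. -/
theorem nbd_area (γ : ℝ → ℂ) {s t ε : ℝ} (hst : s ≤ t) (hε : 0 ≤ ε)
    (hγ : ContinuousOn γ (Icc s t)) (hv : eVariationOn γ (Icc s t) ≠ ⊤) :
    volume (nbd γ s t ε) ≤
      ENNReal.ofReal (2 * ε) * eVariationOn γ (Icc s t) + ENNReal.ofReal (Real.pi * ε ^ 2) := by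
  set v := eVariationOn γ (Icc s t) with hvdef
  have key : ∀ η : ℝ, 0 < η → volume (nbd γ s t ε) ≤
      ENNReal.ofReal (2 * (ε + η)) * v + ENNReal.ofReal (Real.pi * (ε + η) ^ 2) := by
    intro η hη
    have huc := isCompact_Icc.uniformContinuousOn_of_continuous hγ
    rw [Metric.uniformContinuousOn_iff] at huc
    obtain ⟨δ, hδ, hδ'⟩ := huc η hη
    obtain ⟨n, hn⟩ := exists_nat_gt ((t - s) / δ)
    have hnpos : (0 : ℝ) < n := lt_of_le_of_lt (div_nonneg (by linarith) hδ.le) hn
    set h : ℝ := (t - s) / n with hh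
    have hh0 : 0 ≤ h := div_nonneg (by linarith) hnpos.le
    have hhδ : h < δ := by
      rw [hh, div_lt_iff₀ hnpos]
      rw [div_lt_iff₀ hδ] at hn
      linarith
    have hnh : n * h = t - s := by rw [hh]; field_simp
    set u : ℕ → ℝ := fun k => s + k * h with hu
    have humono : Monotone u := by
      intro a b hab
      have : (a : ℝ) ≤ b := by exact_mod_cast hab
      rw [hu]; simp only
      nlinarith
    have humem : ∀ k ≤ n, u k ∈ Icc s t := by
      intro k hk
      have hk' : (k : ℝ) ≤ n := by exact_mod_cast hk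
      rw [hu]; simp only [mem_Icc]
      constructor
      · nlinarith [(Nat.cast_nonneg k : (0 : ℝ) ≤ k)]
      · nlinarith
    have hsub : nbd γ s t ε ⊆ ⋃ k ∈ Finset.range (n + 1), Metric.closedBall (γ (u k)) (ε + η) := by
      rintro z ⟨τ, hτ, hz⟩
      set k := ⌊(τ - s) / h⌋₊ with hk
      have hkn : k ≤ n := by
        have : (τ - s) / h ≤ n := by
          apply div_le_of_le_mul₀ hh0 hnpos.le
          rw [hnh]; linarith [hτ.2]
        exact Nat.floor_le_of_le this
      have hdist : dist τ (u k) < δ := by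
        rw [Real.dist_eq, hu]
        simp only
        rcases hh0.eq_or_lt with h0 | h0
        · have : τ = s := by
            have h1 := hτ.1
            have h2 := hτ.2
            rw [← h0] at hnh
            linarith
          rw [this, ← h0]; simp [hδ]
        · have h1 : (k : ℝ) ≤ (τ - s) / h := Nat.floor_le (div_nonneg (by linarith [hτ.1]) hh0)
          have h2 : (τ - s) / h < k + 1 := Nat.lt_floor_add_one _
          rw [le_div_iff₀ h0] at h1
          rw [div_lt_iff₀ h0] at h2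
          rw [abs_lt]
          constructor <;> nlinarith
      have := hδ' τ hτ (u k) (humem k hkn) hdist
      simp only [mem_iUnion, Finset.mem_range]
      refine ⟨k, by omega, ?_⟩
      rw [Metric.mem_closedBall]
      linarith [dist_triangle z (γ τ) (γ (u k))]
    refine (measure_mono hsub).trans ((balls_chain (fun k => γ (u k)) (by positivity) n).trans ?_)
    gcongr
    exact eVariationOn.sum_le_of_monotoneOn_Iic (humono.monotoneOn _) (fun i hi => humem i hi)
  have hlim : Tendsto (fun η : ℝ => ENNReal.ofReal (2 * (ε + η)) * v +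
      ENNReal.ofReal (Real.pi * (ε + η) ^ 2)) (𝓝[>] 0)
      (𝓝 (ENNReal.ofReal (2 * ε) * v + ENNReal.ofReal (Real.pi * ε ^ 2))) := by
    have h1 : Tendsto (fun η : ℝ => ENNReal.ofReal (2 * (ε + η))) (𝓝[>] 0)
        (𝓝 (ENNReal.ofReal (2 * ε))) := by
      apply ENNReal.tendsto_ofReal
      have : Continuous (fun η : ℝ => 2 * (ε + η)) := by fun_prop
      have h := this.tendsto 0
      simp only [add_zero] at h
      exact h.mono_left nhdsWithin_le_nhds
    have h2 : Tendsto (fun η : ℝ => ENNReal.ofReal (Real.pi * (ε + η) ^ 2)) (𝓝[>] 0)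
        (𝓝 (ENNReal.ofReal (Real.pi * ε ^ 2))) := by
      apply ENNReal.tendsto_ofReal
      have : Continuous (fun η : ℝ => Real.pi * (ε + η) ^ 2) := by fun_prop
      have h := this.tendsto 0
      simp only [add_zero] at h
      exact h.mono_left nhdsWithin_le_nhds
    exact (ENNReal.Tendsto.mul_const h1 (Or.inr hv)).add h2
  refine ge_of_tendsto hlim ?_
  filter_upwards [self_mem_nhdsWithin] with η hη
  exact key η hη

/-! ### Lower bound: curves on the boundary of a polytope -/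

/-- Points of a face at distance at least `δ` from all the other faces. -/
def core (T : Finset (E3 × ℝ)) (δ : ℝ) : Set E3 :=
  {x | ∃ q ∈ T, x ∈ face T q ∧ ∀ q' ∈ T, q' ≠ q → ∀ y ∈ face T q', δ ≤ dist x y}

theorem core_small_arc {T : Finset (E3 × ℝ)} (hT : ∀ q ∈ T, ‖q.1‖ = 1) {γ : ℝ → E3}
    {s t ε r δ : ℝ} (hst : s ≤ t) (hε : 0 ≤ ε) (hδ : ε + 2 * r < δ)
    (hγ : ContinuousOn γ (Icc s t)) (hmem : ∀ τ ∈ Icc s t, γ τ ∈ frontier (polyP T))
    (hr : ∀ τ ∈ Icc s t, dist (γ τ) (γ s) ≤ r) (hv : eVariationOn γ (Icc s t) ≠ ⊤) :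
    μHE[2] (core T δ ∩ nbd γ s t ε) ≤
      ENNReal.ofReal (2 * ε) * eVariationOn γ (Icc s t) + ENNReal.ofReal (Real.pi * ε ^ 2) := by
  by_cases hne : (core T δ ∩ nbd γ s t ε).Nonempty
  swap
  · rw [not_nonempty_iff_eq_empty] at hne
    rw [hne]; simp
  obtain ⟨x, ⟨q, hq, hxq, hfar⟩, τ0, hτ0, hxτ0⟩ := hne
  have hr0 : 0 ≤ r := dist_nonneg.trans (hr τ0 hτ0)
  -- the arc lies in the face
  have harc : ∀ τ ∈ Icc s t, γ τ ∈ face T q := by
    intro τ hτ
    have h1 := frontier_polyP_subset T (hmem τ hτ)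
    simp only [mem_iUnion] at h1
    obtain ⟨q', hq', hy⟩ := h1
    by_cases hqq : q' = q
    · rw [← hqq]; exact hy
    · exfalso
      have h2 := hfar q' hq' hqq _ hy
      have h3 : dist x (γ τ) ≤ dist x (γ τ0) + (dist (γ τ0) (γ s) + dist (γ s) (γ τ)) :=
        (dist_triangle _ (γ τ0) _).trans (by gcongr; exact dist_triangle _ _ _)
      have h4 := hr τ hτ
      have h5 := hr τ0 hτ0
      rw [dist_comm] at h4
      linarith
  obtain ⟨ψ, hψ⟩ := exists_plane_isometry (hT q hq) q.2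
  have hplane : ∀ y ∈ face T q, ∃ z, ψ z = y := by
    intro y hy
    have : y ∈ range ψ := by rw [hψ]; exact hy.2
    exact this
  have hlift : ∀ τ : ℝ, ∃ z : ℂ, τ ∈ Icc s t → ψ z = γ τ := by
    intro τ
    by_cases hτ : τ ∈ Icc s t
    · obtain ⟨z, hz⟩ := hplane _ (harc τ hτ)
      exact ⟨z, fun _ => hz⟩
    · exact ⟨0, fun h => absurd h hτ⟩
  choose g hg using hlift
  have hgv : eVariationOn γ (Icc s t) = eVariationOn g (Icc s t) := by
    have h1 : eVariationOn γ (Icc s t) = eVariationOn (ψ ∘ g) (Icc s t) :=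
      eVariationOn.congr fun τ hτ => (hg τ hτ).symm
    rw [h1]
    unfold eVariationOn
    simp only [Function.comp, ψ.isometry.edist_eq]
  have hgc : ContinuousOn g (Icc s t) := by
    have h1 : ContinuousOn (ψ ∘ g) (Icc s t) := hγ.congr fun τ hτ => hg τ hτ
    exact ψ.isometry.isEmbedding.isInducing.continuousOn_iff.2 h1
  have hsub : core T δ ∩ nbd γ s t ε ⊆ ψ '' (nbd g s t ε) := by
    rintro y ⟨⟨q'', hq'', hyq, hyfar⟩, τ, hτ, hyτ⟩
    have hqq : q'' = q := by
      by_contra hcon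
      have h2 := hyfar q hq (Ne.symm hcon) _ (harc τ hτ)
      linarith
    rw [hqq] at hyq
    obtain ⟨z, rfl⟩ := hplane _ hyq
    refine ⟨z, ⟨τ, hτ, ?_⟩, rfl⟩
    rw [← hg τ hτ, ψ.isometry.dist_eq] at hyτ
    exact hyτ
  calc μHE[2] (core T δ ∩ nbd γ s t ε) ≤ μHE[2] (ψ '' (nbd g s t ε)) := measure_mono hsub
    _ = volume (nbd g s t ε) := muHE_image ψ.isometry _
    _ ≤ _ := by
        rw [hgv]
        exact nbd_area g hst hε hgc (hgv ▸ hv)

theorem core_curve {T : Finset (E3 × ℝ)} (hT : ∀ q ∈ T, ‖q.1‖ = 1) {γ : ℝ → E3}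
    {ε r δ : ℝ} (hε : 0 ≤ ε) (hr : 0 < r) (hδ : ε + 2 * r < δ)
    (hγ : ContinuousOn γ (Icc 0 1)) (hmem : ∀ τ ∈ Icc (0 : ℝ) 1, γ τ ∈ frontier (polyP T)) (m : ℕ) :
    ∀ s ∈ Icc (0 : ℝ) 1, eVariationOn γ (Icc s 1) ≤ ENNReal.ofReal (m * r) →
      μHE[2] (core T δ ∩ nbd γ s 1 ε) ≤
      ENNReal.ofReal (2 * ε) * eVariationOn γ (Icc s 1)
        + (m + 1) * ENNReal.ofReal (Real.pi * ε ^ 2) := by
  induction m with
  | zero =>
    intro s hs hv
    have hv0 : eVariationOn γ (Icc s 1) = 0 := by simpa using hv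
    have hsub : Icc s 1 ⊆ Icc (0 : ℝ) 1 := Icc_subset_Icc_left hs.1
    have := core_small_arc (r := r) hT hs.2 hε hδ (hγ.mono hsub) (fun τ hτ => hmem τ (hsub hτ))
      (fun τ hτ => by
        have h1 := eVariationOn.edist_le γ hτ (left_mem_Icc.2 hs.2)
        rw [hv0] at h1
        have h2 : γ τ = γ s := edist_le_zero.1 h1
        rw [h2, dist_self]; exact hr.le) (by rw [hv0]; simp)
    simpa using this
  | succ m ih =>
    intro s hs hv
    have hsub : Icc s 1 ⊆ Icc (0 : ℝ) 1 := Icc_subset_Icc_left hs.1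
    have hvtop : eVariationOn γ (Icc s 1) ≠ ⊤ := ne_top_of_le_ne_top ENNReal.ofReal_ne_top hv
    set A : Set ℝ := {τ | τ ∈ Icc s 1 ∧ r ≤ dist (γ τ) (γ s)} with hA
    by_cases hAne : A.Nonempty
    swap
    · have hall : ∀ τ ∈ Icc s 1, dist (γ τ) (γ s) ≤ r := by
        intro τ hτ
        by_contra hcon
        exact hAne ⟨τ, hτ, (not_le.1 hcon).le⟩
      have := core_small_arc (r := r) hT hs.2 hε hδ (hγ.mono hsub) (fun τ hτ => hmem τ (hsub hτ))
        hall hvtop
      refine this.trans ?_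
      gcongr
      nth_rw 1 [← one_mul (ENNReal.ofReal (Real.pi * ε ^ 2))]
      gcongr
      simp
    · have hAcl : IsClosed A := by
        have hc : ContinuousOn (fun τ => dist (γ τ) (γ s)) (Icc s 1) :=
          (continuous_id.dist continuous_const).comp_continuousOn (hγ.mono hsub)
        have := hc.preimage_isClosed_of_isClosed isClosed_Icc (isClosed_Ici (a := r))
        exact this
      have hAcomp : IsCompact A := isCompact_Icc.of_isClosed_subset hAcl fun τ hτ => hτ.1
      obtain ⟨s', hs'A, hs'min⟩ := hAcomp.exists_isLeast hAne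
      have hs's : s ≤ s' := hs'A.1.1
      have hs'1 : s' ≤ 1 := hs'A.1.2
      have hs'mem : s' ∈ Icc (0 : ℝ) 1 := hsub hs'A.1
      have hsub' : Icc s s' ⊆ Icc s 1 := Icc_subset_Icc_right hs'1
      have hlt : ∀ τ ∈ Icc s s', dist (γ τ) (γ s) ≤ r := by
        intro τ hτ
        by_contra hcon
        push Not at hcon
        have hτA : τ ∈ A := ⟨hsub' hτ, hcon.le⟩
        have hτs' : τ = s' := le_antisymm hτ.2 (hs'min hτA)
        rw [hτs'] at hcon
        have hc : ContinuousOn (fun τ => dist (γ τ) (γ s)) (Icc s s') :=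
          (continuous_id.dist continuous_const).comp_continuousOn ((hγ.mono hsub).mono hsub')
        have hivt := intermediate_value_Icc hs's hc
        have hrm : r ∈ Icc (dist (γ s) (γ s)) (dist (γ s') (γ s)) := ⟨by simp [hr.le], hcon.le⟩
        obtain ⟨τ1, hτ1, hτ1r⟩ := hivt hrm
        have hτ1r' : dist (γ τ1) (γ s) = r := hτ1r
        have hτ1A : τ1 ∈ A := ⟨hsub' hτ1, hτ1r'.ge⟩
        have : τ1 = s' := le_antisymm hτ1.2 (hs'min hτ1A)
        rw [this] at hτ1r'
        linarith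
      have hadd : eVariationOn γ (Icc s s') + eVariationOn γ (Icc s' 1) =
          eVariationOn γ (Icc s 1) := by
        have := eVariationOn.Icc_add_Icc γ (s := univ) hs's hs'1 (mem_univ _)
        simpa using this
      have hr' : ENNReal.ofReal r ≤ eVariationOn γ (Icc s s') := by
        calc ENNReal.ofReal r ≤ ENNReal.ofReal (dist (γ s') (γ s)) :=
              ENNReal.ofReal_le_ofReal hs'A.2
          _ = edist (γ s') (γ s) := (edist_dist _ _).symm
          _ ≤ _ := eVariationOn.edist_le γ (right_mem_Icc.2 hs's) (left_mem_Icc.2 hs's)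
      have hv' : eVariationOn γ (Icc s' 1) ≤ ENNReal.ofReal (m * r) := by
        have h1 : ENNReal.ofReal r + eVariationOn γ (Icc s' 1) ≤
            ENNReal.ofReal r + ENNReal.ofReal (m * r) := by
          calc ENNReal.ofReal r + eVariationOn γ (Icc s' 1)
              ≤ eVariationOn γ (Icc s s') + eVariationOn γ (Icc s' 1) := by gcongr
            _ = eVariationOn γ (Icc s 1) := hadd
            _ ≤ ENNReal.ofReal ((m + 1 : ℕ) * r) := hv
            _ = ENNReal.ofReal r + ENNReal.ofReal (m * r) := by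
                rw [← ENNReal.ofReal_add hr.le (by positivity)]
                congr 1; push_cast; ring
        exact (ENNReal.add_le_add_iff_left ENNReal.ofReal_ne_top).1 h1
      have hsplit : core T δ ∩ nbd γ s 1 ε ⊆
          (core T δ ∩ nbd γ s s' ε) ∪ (core T δ ∩ nbd γ s' 1 ε) := by
        rintro x ⟨hx, τ, hτ, hxτ⟩
        rcases le_total τ s' with h | h
        · left; exact ⟨hx, τ, ⟨hτ.1, h⟩, hxτ⟩
        · right; exact ⟨hx, τ, ⟨h, hτ.2⟩, hxτ⟩
      have hvs : eVariationOn γ (Icc s s') ≠ ⊤ :=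
        ne_top_of_le_ne_top hvtop (eVariationOn.mono γ hsub')
      have h1 := core_small_arc (r := r) hT hs's hε hδ ((hγ.mono hsub).mono hsub')
        (fun τ hτ => hmem τ (hsub (hsub' hτ))) hlt hvs
      have h2 := ih s' hs'mem hv'
      calc μHE[2] (core T δ ∩ nbd γ s 1 ε)
          ≤ μHE[2] (core T δ ∩ nbd γ s s' ε) + μHE[2] (core T δ ∩ nbd γ s' 1 ε) :=
            (measure_mono hsplit).trans (measure_union_le _ _)
        _ ≤ _ := add_le_add h1 h2
        _ = _ := by
            rw [← hadd]; push_cast; ring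

theorem core_measure {T : Finset (E3 × ℝ)} (hT : ∀ q ∈ T, ‖q.1‖ = 1)
    (hne : (interior (polyP T)).Nonempty) {a : ℝ≥0∞} (ha : a < μHE[2] (frontier (polyP T))) :
    ∃ δ : ℝ, 0 < δ ∧ a < μHE[2] (core T δ) := by
  classical
  have hmono : Monotone (fun n : ℕ => core T (1 / ((n : ℝ) + 1))) := by
    intro m n hmn x hx
    obtain ⟨q, hq, hxq, hfar⟩ := hx
    refine ⟨q, hq, hxq, fun q' hq' hqq y hy => le_trans ?_ (hfar q' hq' hqq y hy)⟩
    have : (m : ℝ) ≤ n := by exact_mod_cast hmn
    gcongr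
  set N : Set E3 := ⋃ q ∈ T, ⋃ q' ∈ T.filter (fun q' => q' ≠ q), face T q ∩ face T q' with hN
  have hN0 : μHE[2] N = 0 := by
    rw [hN]
    refine (measure_biUnion_null_iff (Finset.countable_toSet T)).2 ?_
    intro q hq
    refine (measure_biUnion_null_iff (Finset.countable_toSet _)).2 ?_
    intro q' hq'
    have hq'' := Finset.mem_filter.1 hq'
    exact face_inter_null hT hne hq hq''.1 (Ne.symm hq''.2)
  have hcov : frontier (polyP T) ⊆ (⋃ n : ℕ, core T (1 / ((n : ℝ) + 1))) ∪ N := by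
    intro x hx
    have h1 := frontier_polyP_subset T hx
    simp only [mem_iUnion] at h1
    obtain ⟨q, hq, hxq⟩ := h1
    by_cases hxN : x ∈ N
    · right; exact hxN
    left
    have hnot : ∀ q' ∈ T, q' ≠ q → x ∉ face T q' := by
      intro q' hq' hqq hxq'
      apply hxN
      simp only [hN, mem_iUnion]
      exact ⟨q, hq, q', Finset.mem_filter.2 ⟨hq', hqq⟩, hxq, hxq'⟩
    have hpos : ∀ q' ∈ T, q' ≠ q → ∃ d > 0, ∀ y ∈ face T q', d ≤ dist x y := by
      intro q' hq' hqq
      have hx' : x ∈ (face T q')ᶜ := hnot q' hq' hqq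
      obtain ⟨d, hd, hball⟩ := Metric.isOpen_iff.1 (face_closed T q').isOpen_compl x hx'
      refine ⟨d, hd, fun y hy => ?_⟩
      by_contra hcon
      push Not at hcon
      exact hball (by rw [Metric.mem_ball, dist_comm]; exact hcon) hy
    have huni : ∃ d > 0, ∀ q' ∈ T, q' ≠ q → ∀ y ∈ face T q', d ≤ dist x y := by
      have : ∀ U : Finset (E3 × ℝ), U ⊆ T → ∃ d > 0, ∀ q' ∈ U, q' ≠ q → ∀ y ∈ face T q',
          d ≤ dist x y := by
        intro U
        induction U using Finset.induction_on with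
        | empty => intro _; exact ⟨1, one_pos, by simp⟩
        | insert p U hp ih =>
          intro hU
          obtain ⟨d, hd, hd'⟩ := ih (fun z hz => hU (Finset.mem_insert_of_mem hz))
          by_cases hpq : p = q
          · refine ⟨d, hd, fun q' hq' hqq y hy => ?_⟩
            rcases Finset.mem_insert.1 hq' with h | h
            · exact absurd (h.trans hpq) hqq
            · exact hd' q' h hqq y hy
          · obtain ⟨e, he, he'⟩ := hpos p (hU (Finset.mem_insert_self _ _)) hpq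
            refine ⟨min d e, lt_min hd he, fun q' hq' hqq y hy => ?_⟩
            rcases Finset.mem_insert.1 hq' with h | h
            · rw [h] at hy
              exact (min_le_right _ _).trans (he' y hy)
            · exact (min_le_left _ _).trans (hd' q' h hqq y hy)
      exact this T (Finset.Subset.refl _)
    obtain ⟨d, hd, hd'⟩ := huni
    obtain ⟨n, hn⟩ := exists_nat_one_div_lt hd
    simp only [mem_iUnion]
    exact ⟨n, q, hq, hxq, fun q' hq' hqq y hy => hn.le.trans (hd' q' hq' hqq y hy)⟩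
  have hle : μHE[2] (frontier (polyP T)) ≤ μHE[2] (⋃ n : ℕ, core T (1 / ((n : ℝ) + 1))) := by
    calc _ ≤ _ := measure_mono hcov
      _ ≤ _ := measure_union_le _ _
      _ = _ := by rw [hN0, add_zero]
  have hlim := tendsto_measure_iUnion_atTop (μ := μHE[2]) hmono
  have hev := (tendsto_order.1 hlim).1 a (ha.trans_le hle)
  obtain ⟨n, hn⟩ := hev.exists
  exact ⟨1 / ((n : ℝ) + 1), by positivity, hn⟩

theorem edist_le_intrinsicDist (S : Set E3) (x y : E3) : edist x y ≤ intrinsicDist S x y := by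
  unfold intrinsicDist pathLength
  refine le_iInf fun γ => le_iInf fun h => ?_
  obtain ⟨_, h0, h1⟩ := h
  rw [← h0, ← h1]
  exact eVariationOn.edist_le γ (left_mem_Icc.2 zero_le_one) (right_mem_Icc.2 zero_le_one)

/-- Asymptotic lower bound for the length of dense curves. -/
theorem lower_bound {T : Finset (E3 × ℝ)} (hT : ∀ q ∈ T, ‖q.1‖ = 1)
    (hne : (interior (polyP T)).Nonempty) {K : Set E3} (hK : IsCompact K)
    (hTK : polyP T ⊆ interior K) {a : ℝ}
    (ha : ENNReal.ofReal a < μHE[2] (frontier (polyP T))) :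
    ∀ᶠ ε : ℝ in 𝓝[>] 0, ∀ γ, IsDenseCurve (frontier K) ε γ →
      a / 2 ≤ ε * (pathLength γ).toReal := by
  obtain ⟨δ, hδ, haδ⟩ := core_measure hT hne ha
  obtain ⟨p, hp⟩ := exists_isProj (polyP_convex T) (polyP_closed T) (hne.mono interior_subset)
  set r : ℝ := δ / 4 with hr
  have hr0 : 0 < r := by positivity
  have hlim : Tendsto (fun ε : ℝ => ENNReal.ofReal (a / 2 * (2 + Real.pi * ε / r)
      + 2 * (Real.pi * ε ^ 2))) (𝓝[>] 0) (𝓝 (ENNReal.ofReal a)) := by
    apply ENNReal.tendsto_ofReal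
    have : Continuous (fun ε : ℝ => a / 2 * (2 + Real.pi * ε / r) + 2 * (Real.pi * ε ^ 2)) := by
      fun_prop
    have h := this.tendsto 0
    have e : a / 2 * (2 + Real.pi * 0 / r) + 2 * (Real.pi * 0 ^ 2) = a := by simp
    rw [e] at h
    exact h.mono_left nhdsWithin_le_nhds
  have hev := (tendsto_order.1 hlim).2 _ haδ
  have hev2 : ∀ᶠ ε : ℝ in 𝓝[>] 0, ε < δ / 2 :=
    (eventually_lt_nhds (by positivity)).filter_mono nhdsWithin_le_nhds
  filter_upwards [hev, hev2, self_mem_nhdsWithin] with ε h1 h2 h3 γ hγ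
  have hε : 0 < ε := h3
  by_contra hcon
  push Not at hcon
  obtain ⟨⟨hγc, hγm⟩, hγf, hγd⟩ := hγ
  set ℓ : ℝ := (pathLength γ).toReal with hℓ
  have hℓ0 : 0 ≤ ℓ := ENNReal.toReal_nonneg
  have hPK : polyP T ⊆ K := hTK.trans interior_subset
  -- the projected curve
  have hc : ContinuousOn (p ∘ γ) (Icc 0 1) := hp.lipschitz.continuous.comp_continuousOn hγc
  have hmem : ∀ τ ∈ Icc (0 : ℝ) 1, (p ∘ γ) τ ∈ frontier (polyP T) := by
    intro τ hτ
    apply hp.mem_frontier (polyP_closed T)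
    intro hi
    have h4 := hγm τ hτ
    exact h4.2 (hTK (interior_subset hi))
  have hvar : eVariationOn (p ∘ γ) (Icc 0 1) ≤ ENNReal.ofReal ℓ := by
    have h4 := (hp.lipschitz.lipschitzOnWith (s := univ)).comp_eVariationOn_le (g := γ)
      (s := Icc 0 1) (mapsTo_univ _ _)
    rw [ENNReal.coe_one, one_mul] at h4
    rw [hℓ, ENNReal.ofReal_toReal hγf.ne]
    exact h4
  set m : ℕ := ⌈ℓ / r⌉₊ with hm
  have hm1 : ℓ ≤ m * r := by
    have := Nat.le_ceil (ℓ / r)
    rwa [div_le_iff₀ hr0] at this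
  have hm2 : (m : ℝ) ≤ ℓ / r + 1 := (Nat.ceil_lt_add_one (by positivity)).le
  have h5 := core_curve hT hε.le hr0 (δ := δ) (by rw [hr]; linarith) hc hmem m 0
    (left_mem_Icc.2 zero_le_one) (hvar.trans (ENNReal.ofReal_le_ofReal hm1))
  have hcover : core T δ ⊆ nbd (p ∘ γ) 0 1 ε := by
    rintro x ⟨q, hq, hxq, _⟩
    have hx : x ∈ frontier (polyP T) := face_subset_frontier hq (hT q hq) hxq
    obtain ⟨y, hy, rfl⟩ := frontier_subset_image hp (polyP_convex T) (polyP_closed T) hne hPK
      hK.isBounded hx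
    obtain ⟨τ, hτ, hd⟩ := hγd y hy
    refine ⟨τ, hτ, ?_⟩
    have h6 := (edist_le_intrinsicDist _ _ _).trans hd
    rw [edist_dist] at h6
    have h7 : dist y (γ τ) ≤ ε := (ENNReal.ofReal_le_ofReal_iff hε.le).1 h6
    have h8 := hp.lipschitz.dist_le_mul y (γ τ)
    rw [NNReal.coe_one, one_mul] at h8
    exact h8.trans h7
  rw [inter_eq_self_of_subset_left hcover] at h5
  have h9 : μHE[2] (core T δ) ≤ ENNReal.ofReal (a / 2 * (2 + Real.pi * ε / r)
      + 2 * (Real.pi * ε ^ 2)) := by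
    calc μHE[2] (core T δ) ≤ _ := h5
      _ ≤ ENNReal.ofReal (2 * ε) * ENNReal.ofReal ℓ
        + (m + 1) * ENNReal.ofReal (Real.pi * ε ^ 2) := by gcongr
      _ = ENNReal.ofReal (2 * ε * ℓ + (m + 1) * (Real.pi * ε ^ 2)) := by
        rw [← ENNReal.ofReal_mul (by positivity), ENNReal.ofReal_add (by positivity)
          (by positivity), ENNReal.ofReal_mul (p := (m : ℝ) + 1) (by positivity)]
        congr 2
        rw [ENNReal.ofReal_add (by positivity) (by positivity)]
        simp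
      _ ≤ _ := by
        apply ENNReal.ofReal_le_ofReal
        have e1 : (m + 1) * (Real.pi * ε ^ 2) ≤ (ℓ / r + 2) * (Real.pi * ε ^ 2) := by
          exact mul_le_mul_of_nonneg_right (by linarith) (by positivity)
        have e2 : 2 * ε * ℓ + (ℓ / r + 2) * (Real.pi * ε ^ 2) =
            (ε * ℓ) * (2 + Real.pi * ε / r) + 2 * (Real.pi * ε ^ 2) := by
          field_simp; ring
        have e3 : (ε * ℓ) * (2 + Real.pi * ε / r) ≤ a / 2 * (2 + Real.pi * ε / r) := by
          gcongr
        linarith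
  exact absurd h1 (not_lt.2 h9)

/-! ### Paths covering a set -/

/-- There is a path of length at most `ℓ` in `S` from `x` to `y` passing within intrinsic
distance `ε` of every point of `E`. -/
def Cov (S : Set E3) (ε ℓ : ℝ) (x y : E3) (E : Set E3) : Prop :=
  0 ≤ ℓ ∧ ∃ γ : ℝ → E3, LipschitzOnWith 1 γ (Icc 0 ℓ) ∧ (∀ t ∈ Icc 0 ℓ, γ t ∈ S) ∧ γ 0 = x ∧
    γ ℓ = y ∧ ∀ e ∈ E, ∃ t ∈ Icc 0 ℓ, intrinsicDist S e (γ t) ≤ ENNReal.ofReal ε

theorem Cov.mono {S : Set E3} {ε ℓ : ℝ} {x y : E3} {E E' : Set E3} (h : Cov S ε ℓ x y E)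
    (hE : E' ⊆ E) : Cov S ε ℓ x y E' := by
  obtain ⟨h0, γ, h1, h2, h3, h4, h5⟩ := h
  exact ⟨h0, γ, h1, h2, h3, h4, fun e he => h5 e (hE he)⟩

theorem Cov.concat {S : Set E3} {ε ℓ₁ ℓ₂ : ℝ} {x y z : E3} {E₁ E₂ : Set E3}
    (h1 : Cov S ε ℓ₁ x y E₁) (h2 : Cov S ε ℓ₂ y z E₂) : Cov S ε (ℓ₁ + ℓ₂) x z (E₁ ∪ E₂) := by
  obtain ⟨hp1, γ₁, hL1, hS1, h01, he1, hc1⟩ := h1
  obtain ⟨hp2, γ₂, hL2, hS2, h02, he2, hc2⟩ := h2
  set γ : ℝ → E3 := fun t => if t ≤ ℓ₁ then γ₁ t else γ₂ (t - ℓ₁) with hγ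
  have hγ1 : ∀ t, t ≤ ℓ₁ → γ t = γ₁ t := fun t ht => by simp [hγ, ht]
  have hγ2 : ∀ t, ℓ₁ ≤ t → γ t = γ₂ (t - ℓ₁) := by
    intro t ht
    rcases ht.eq_or_lt with h | h
    · rw [hγ1 t h.ge, ← h, sub_self, h02, he1]
    · simp [hγ, not_le.2 h]
  have hd1 : ∀ a b, 0 ≤ a → a ≤ b → b ≤ ℓ₁ → dist (γ a) (γ b) ≤ b - a := by
    intro a b ha hab hb
    rw [hγ1 a (hab.trans hb), hγ1 b hb]
    have := hL1.dist_le_mul a ⟨ha, hab.trans hb⟩ b ⟨ha.trans hab, hb⟩
    rw [NNReal.coe_one, one_mul, Real.dist_eq, abs_sub_comm, abs_of_nonneg (by linarith)] at this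
    exact this
  have hd2 : ∀ a b, ℓ₁ ≤ a → a ≤ b → b ≤ ℓ₁ + ℓ₂ → dist (γ a) (γ b) ≤ b - a := by
    intro a b ha hab hb
    rw [hγ2 a ha, hγ2 b (ha.trans hab)]
    have := hL2.dist_le_mul (a - ℓ₁) ⟨by linarith, by linarith⟩ (b - ℓ₁)
      ⟨by linarith, by linarith⟩
    rw [NNReal.coe_one, one_mul, Real.dist_eq, abs_sub_comm, abs_of_nonneg (by linarith)] at this
    linarith
  have hd : ∀ a b, 0 ≤ a → a ≤ b → b ≤ ℓ₁ + ℓ₂ → dist (γ a) (γ b) ≤ b - a := by
    intro a b ha hab hb
    rcases le_total b ℓ₁ with h | h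
    · exact hd1 a b ha hab h
    rcases le_total ℓ₁ a with h' | h'
    · exact hd2 a b h' hab hb
    · have := dist_triangle (γ a) (γ ℓ₁) (γ b)
      linarith [hd1 a ℓ₁ ha h' le_rfl, hd2 ℓ₁ b le_rfl h hb]
  refine ⟨by linarith, γ, ?_, ?_, ?_, ?_, ?_⟩
  · apply LipschitzOnWith.of_dist_le_mul
    intro a ha b hb
    rw [NNReal.coe_one, one_mul, Real.dist_eq]
    rcases le_total a b with h | h
    · rw [abs_sub_comm, abs_of_nonneg (by linarith)]
      exact hd a b ha.1 h hb.2
    · rw [abs_of_nonneg (by linarith), dist_comm]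
      exact hd b a hb.1 h ha.2
  · intro t ht
    rcases le_total t ℓ₁ with h | h
    · rw [hγ1 t h]; exact hS1 t ⟨ht.1, h⟩
    · rw [hγ2 t h]; exact hS2 _ ⟨by linarith, by linarith [ht.2]⟩
  · rw [hγ1 0 hp1, h01]
  · rw [hγ2 _ (by linarith)]
    rw [add_sub_cancel_left, he2]
  · rintro e (he | he)
    · obtain ⟨t, ht, h⟩ := hc1 e he
      exact ⟨t, ⟨ht.1, by linarith [ht.2]⟩, by rw [hγ1 t ht.2]; exact h⟩
    · obtain ⟨t, ht, h⟩ := hc2 e he
      refine ⟨ℓ₁ + t, ⟨by linarith [ht.1], by linarith [ht.2]⟩, ?_⟩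
      rw [hγ2 _ (by linarith [ht.1]), add_sub_cancel_left]
      exact h

theorem eVariationOn_le_of_lipschitz {f : ℝ → E3} {C : ℝ≥0} (hf : LipschitzOnWith C f (Icc 0 1)) :
    eVariationOn f (Icc 0 1) ≤ C := by
  have h1 := hf.comp_eVariationOn_le (g := id) (s := Icc 0 1) (mapsTo_id _)
  have h2 : eVariationOn (id : ℝ → ℝ) (Icc 0 1) ≤ 1 := by
    have := (monotone_id (α := ℝ)).monotoneOn (Icc (0 : ℝ) 1)
    have h3 := this.eVariationOn_eq (a := 0) (b := 1) (by simp) (by simp)
    rw [inter_self] at h3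
    rw [h3]; simp
  calc eVariationOn f (Icc 0 1) ≤ C * eVariationOn (id : ℝ → ℝ) (Icc 0 1) := h1
    _ ≤ C * 1 := by gcongr
    _ = C := mul_one _

theorem Cov.exists_dense {S : Set E3} {ε ℓ : ℝ} {x y : E3} (h : Cov S ε ℓ x y S) :
    ∃ γ, IsDenseCurve S ε γ ∧ pathLength γ ≤ ENNReal.ofReal ℓ := by
  obtain ⟨h0, γ, hL, hS, _, _, hc⟩ := h
  have hmaps : ∀ t ∈ Icc (0 : ℝ) 1, ℓ * t ∈ Icc 0 ℓ := by
    intro t ht
    exact ⟨mul_nonneg h0 ht.1, mul_le_of_le_one_right h0 ht.2⟩
  have hlip : LipschitzOnWith ⟨ℓ, h0⟩ (fun t => γ (ℓ * t)) (Icc 0 1) := by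
    apply LipschitzOnWith.of_dist_le_mul
    intro a ha b hb
    have := hL.dist_le_mul _ (hmaps a ha) _ (hmaps b hb)
    rw [NNReal.coe_one, one_mul, Real.dist_eq, ← mul_sub, abs_mul, abs_of_nonneg h0] at this
    exact this
  have hlen : pathLength (fun t => γ (ℓ * t)) ≤ ENNReal.ofReal ℓ := by
    refine (eVariationOn_le_of_lipschitz hlip).trans ?_
    rw [ENNReal.ofReal, Real.toNNReal_of_nonneg h0]
    exact le_rfl
  refine ⟨fun t => γ (ℓ * t), ⟨⟨hlip.continuousOn, fun t ht => hS _ (hmaps t ht)⟩,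
    hlen.trans_lt ENNReal.ofReal_lt_top, ?_⟩, hlen⟩
  intro e he
  obtain ⟨t, ht, h⟩ := hc e he
  rcases h0.eq_or_lt with h1 | h1
  · refine ⟨0, by simp, ?_⟩
    rw [← h1] at ht
    have : t = 0 := le_antisymm ht.2 ht.1
    simpa [this] using h
  · refine ⟨t / ℓ, ⟨by have := ht.1; positivity, by rw [div_le_one h1]; exact ht.2⟩, ?_⟩
    show intrinsicDist S e (γ (ℓ * (t / ℓ))) ≤ _
    rw [mul_div_cancel₀ _ h1.ne']
    exact h

section seg

variable {V : Type*} [NormedAddCommGroup V] [NormedSpace ℝ V]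

theorem intrinsicDist_le {S : Set E3} {f : V → E3} (hf : LipschitzWith 1 f) {z w : V}
    (hS : ∀ p ∈ segment ℝ z w, f p ∈ S) : intrinsicDist S (f z) (f w) ≤ edist z w := by
  have hlip : LipschitzOnWith (nndist z w) (fun t : ℝ => f (AffineMap.lineMap z w t))
      (Icc 0 1) := by
    apply LipschitzOnWith.of_dist_le_mul
    intro a _ b _
    have := hf.dist_le_mul (AffineMap.lineMap z w a) (AffineMap.lineMap z w b)
    rw [NNReal.coe_one, one_mul] at this
    refine this.trans ?_
    rw [dist_lineMap_lineMap, mul_comm]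
    rfl
  have hlen := eVariationOn_le_of_lipschitz hlip
  have hpath : IsPathIn S (fun t : ℝ => f (AffineMap.lineMap z w t)) := by
    refine ⟨hlip.continuousOn, fun t ht => hS _ ?_⟩
    rw [segment_eq_image_lineMap]
    exact ⟨t, ht, rfl⟩
  unfold intrinsicDist
  refine (iInf_le_of_le (fun t : ℝ => f (AffineMap.lineMap z w t)) (iInf_le_of_le ⟨hpath, ?_, ?_⟩
    ?_))
  · simp
  · simp
  · unfold pathLength
    refine hlen.trans ?_
    rw [edist_nndist]

theorem seg_cov {S : Set E3} {f : V → E3} (hf : LipschitzWith 1 f) {z w : V}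
    (hS : ∀ p ∈ segment ℝ z w, f p ∈ S) {ε : ℝ} {E : Set E3}
    (hE : ∀ e ∈ E, ∃ p ∈ segment ℝ z w, intrinsicDist S e (f p) ≤ ENNReal.ofReal ε) :
    Cov S ε (dist z w) (f z) (f w) E := by
  by_cases hzw : z = w
  · subst hzw
    refine ⟨by simp, fun _ => f z, ?_, ?_, rfl, rfl, ?_⟩
    · exact (LipschitzWith.const _).lipschitzOnWith.weaken (by simp)
    · intro t _; exact hS z (left_mem_segment ℝ z z)
    · intro e he
      obtain ⟨p, hp, h⟩ := hE e he
      rw [segment_same] at hp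
      rw [mem_singleton_iff.1 hp] at h
      exact ⟨0, by simp, h⟩
  set d := dist z w with hd
  have hd0 : 0 < d := dist_pos.2 hzw
  have hmaps : ∀ t ∈ Icc 0 d, AffineMap.lineMap z w (t / d) ∈ segment ℝ z w := by
    intro t ht
    rw [segment_eq_image_lineMap]
    exact ⟨t / d, ⟨by have := ht.1; positivity, by rw [div_le_one hd0]; exact ht.2⟩, rfl⟩
  refine ⟨hd0.le, fun t => f (AffineMap.lineMap z w (t / d)), ?_, ?_, ?_, ?_, ?_⟩
  · apply LipschitzOnWith.of_dist_le_mul
    intro a _ b _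
    have := hf.dist_le_mul (AffineMap.lineMap z w (a / d)) (AffineMap.lineMap z w (b / d))
    refine this.trans ?_
    rw [dist_lineMap_lineMap, ← hd, Real.dist_eq, Real.dist_eq, ← sub_div, abs_div,
      abs_of_pos hd0]
    simp only [NNReal.coe_one, one_mul]
    rw [div_mul_cancel₀ _ hd0.ne']
  · intro t ht; exact hS _ (hmaps t ht)
  · simp
  · simp [div_self hd0.ne']
  · intro e he
    obtain ⟨p, hp, h⟩ := hE e he
    rw [segment_eq_image_lineMap] at hp
    obtain ⟨t, ht, rfl⟩ := hp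
    refine ⟨t * d, ⟨mul_nonneg ht.1 hd0.le, mul_le_of_le_one_left hd0.le ht.2⟩, ?_⟩
    simp only [mul_div_cancel_right₀ _ hd0.ne']
    exact h

end seg

/-! ### Zigzag curves -/

theorem dist_row (a a' y : ℝ) : dist (⟨a, y⟩ : ℂ) ⟨a', y⟩ = |a - a'| := by
  rw [Complex.dist_of_im_eq (z := ⟨a, y⟩) (w := ⟨a', y⟩) rfl]
  exact Real.dist_eq a a'

theorem dist_col (a y y' : ℝ) : dist (⟨a, y⟩ : ℂ) ⟨a, y'⟩ = |y - y'| := by
  rw [Complex.dist_of_re_eq (z := ⟨a, y⟩) (w := ⟨a, y'⟩) rfl]
  exact Real.dist_eq y y'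

/-- The rectangle `[a,a+s] × [b,t)`. -/
def Rect (a s b t : ℝ) : Set ℂ := {z | z.re ∈ Icc a (a + s) ∧ z.im ∈ Ico b t}

theorem row_cov {S : Set E3} {f : ℂ → E3} (hf : LipschitzWith 1 f) (hS : ∀ z, f z ∈ S)
    {a s y h ε : ℝ} (hs : 0 ≤ s) (hε : h / 2 ≤ ε) :
    Cov S ε s (f ⟨a, y⟩) (f ⟨a + s, y⟩) (f '' Rect a s (y - h / 2) (y + h / 2)) ∧
    Cov S ε s (f ⟨a + s, y⟩) (f ⟨a, y⟩) (f '' Rect a s (y - h / 2) (y + h / 2)) := by
  have hd : dist (⟨a, y⟩ : ℂ) ⟨a + s, y⟩ = s := by
    rw [dist_row, show a - (a + s) = -s by ring, abs_neg, abs_of_nonneg hs]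
  have hseg : ∀ z ∈ Rect a s (y - h / 2) (y + h / 2), (⟨z.re, y⟩ : ℂ) ∈
      segment ℝ (⟨a, y⟩ : ℂ) ⟨a + s, y⟩ := by
    intro z hz
    obtain ⟨⟨h1, h2⟩, _⟩ := hz
    rw [segment_eq_image_lineMap]
    rcases hs.eq_or_lt with h0 | h0
    · refine ⟨0, by simp, ?_⟩
      rw [AffineMap.lineMap_apply_zero]
      apply Complex.ext
      · show a = z.re
        linarith
      · rfl
    · refine ⟨(z.re - a) / s, ⟨div_nonneg (by linarith) hs, by rw [div_le_one h0]; linarith⟩, ?_⟩
      rw [AffineMap.lineMap_apply]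
      apply Complex.ext
      · simp
        field_simp
        ring
      · simp
  have hcov : ∀ e ∈ f '' Rect a s (y - h / 2) (y + h / 2), ∃ p ∈ segment ℝ (⟨a, y⟩ : ℂ) ⟨a + s, y⟩,
      intrinsicDist S e (f p) ≤ ENNReal.ofReal ε := by
    rintro e ⟨z, hz, rfl⟩
    refine ⟨⟨z.re, y⟩, hseg z hz, ?_⟩
    refine (intrinsicDist_le hf fun p _ => hS p).trans ?_
    rw [edist_dist]
    apply ENNReal.ofReal_le_ofReal
    have e1 : dist z (⟨z.re, y⟩ : ℂ) = |z.im - y| := dist_col z.re z.im y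
    rw [e1]
    refine le_trans ?_ hε
    rw [abs_le]
    obtain ⟨_, h3, h4⟩ := hz
    constructor <;> linarith
  constructor
  · have := seg_cov hf (fun p _ => hS p) hcov
    rwa [hd] at this
  · have := seg_cov hf (z := (⟨a + s, y⟩ : ℂ)) (w := ⟨a, y⟩) (fun p _ => hS p)
      (E := f '' Rect a s (y - h / 2) (y + h / 2)) (ε := ε) (by
        rw [segment_symm]; exact hcov)
    rwa [dist_comm, hd] at this

theorem vert_cov {S : Set E3} {f : ℂ → E3} (hf : LipschitzWith 1 f) (hS : ∀ z, f z ∈ S)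
    (a y y' ε : ℝ) : Cov S ε |y - y'| (f ⟨a, y⟩) (f ⟨a, y'⟩) ∅ := by
  have := seg_cov hf (z := (⟨a, y⟩ : ℂ)) (w := ⟨a, y'⟩) (fun p _ => hS p) (E := ∅) (ε := ε)
    (by simp)
  rwa [dist_col] at this

theorem zigzag {S : Set E3} {f : ℂ → E3} (hf : LipschitzWith 1 f) (hS : ∀ z, f z ∈ S)
    {a s h ε : ℝ} (hs : 0 ≤ s) (hh : 0 ≤ h) (hε : h / 2 ≤ ε) (y : ℝ) (n : ℕ) :
    Cov S ε (n * (2 * s + 2 * h)) (f ⟨a, y⟩) (f ⟨a, y + n * (2 * h)⟩)
      (f '' Rect a s (y - h / 2) (y - h / 2 + n * (2 * h))) := by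
  induction n with
  | zero =>
    have h0 : Cov S ε 0 (f ⟨a, y⟩) (f ⟨a, y⟩) ∅ := by
      have := vert_cov hf hS a y y ε
      simpa using this
    have e1 : ((0 : ℕ) : ℝ) * (2 * s + 2 * h) = 0 := by simp
    have e2 : y + ((0 : ℕ) : ℝ) * (2 * h) = y := by simp
    rw [e1, e2]
    apply h0.mono
    rintro e ⟨z, ⟨_, hz1, hz2⟩, _⟩
    simp at hz2
    exact absurd hz1 (not_le.2 hz2)
  | succ n ih =>
    set Y : ℝ := y + n * (2 * h) with hY
    have r1 := (row_cov hf hS (a := a) (y := Y) hs hε).1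
    have v1 := vert_cov hf hS (a + s) Y (Y + h) ε
    have r2 := (row_cov hf hS (a := a) (y := Y + h) hs hε).2
    have v2 := vert_cov hf hS a (Y + h) (Y + h + h) ε
    have hall := (((ih.concat r1).concat v1).concat r2).concat v2
    have e1 : n * (2 * s + 2 * h) + s + |Y - (Y + h)| + s + |Y + h - (Y + h + h)| =
        ((n + 1 : ℕ) : ℝ) * (2 * s + 2 * h) := by
      rw [show Y - (Y + h) = -h by ring, show Y + h - (Y + h + h) = -h by ring, abs_neg,
        abs_of_nonneg hh]
      push_cast; ring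
    have e2 : Y + h + h = y + ((n + 1 : ℕ) : ℝ) * (2 * h) := by
      rw [hY]; push_cast; ring
    rw [e1, e2] at hall
    apply hall.mono
    rintro e ⟨z, ⟨hz0, hz1, hz2⟩, rfl⟩
    by_cases h1 : z.im < y - h / 2 + n * (2 * h)
    · exact Or.inl (Or.inl (Or.inl (Or.inl ⟨z, ⟨hz0, hz1, h1⟩, rfl⟩)))
    push Not at h1
    by_cases h2 : z.im < Y + h / 2
    · exact Or.inl (Or.inl (Or.inl (Or.inr ⟨z, ⟨hz0, by rw [hY]; linarith, h2⟩, rfl⟩)))
    push Not at h2
    refine Or.inl (Or.inr ⟨z, ⟨hz0, by linarith, ?_⟩, rfl⟩)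
    push_cast at hz2
    rw [hY]; linarith

/-- A half-open square of side `s` is passed by a curve of length about `s^2/(2ε)`. -/
theorem square_cov {S : Set E3} {f : ℂ → E3} (hf : LipschitzWith 1 f) (hS : ∀ z, f z ∈ S)
    {a b s ε : ℝ} (hs : 0 < s) (hε : 0 < ε) :
    ∃ ℓ ≤ s ^ 2 / (2 * ε) + 4 * s, Cov S ε ℓ (f ⟨a, b⟩) (f ⟨a, b + s⟩)
      (f '' Rect a s b (b + s)) := by
  set k : ℕ := ⌈s / (4 * ε)⌉₊ with hk
  have hk0 : 0 < k := Nat.ceil_pos.2 (by positivity)
  have hk0' : (1 : ℝ) ≤ k := by exact_mod_cast hk0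
  have hk1 : s / (4 * ε) ≤ k := Nat.le_ceil _
  have hk2 : (k : ℝ) ≤ s / (4 * ε) + 1 := (Nat.ceil_lt_add_one (by positivity)).le
  set h : ℝ := s / (2 * k) with hh
  have hkh : k * (2 * h) = s := by rw [hh]; field_simp
  have hh0 : 0 < h := by positivity
  have hhε : h / 2 ≤ ε := by
    rw [hh, div_div, div_le_iff₀ (by positivity)]
    rw [div_le_iff₀ (by positivity)] at hk1
    linarith
  have hhs : h ≤ s := by nlinarith
  have v1 := vert_cov hf hS a b (b + h / 2) ε
  have z1 := zigzag hf hS (a := a) hs.le hh0.le hhε (b + h / 2) k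
  have v2 := vert_cov hf hS a (b + h / 2 + k * (2 * h)) (b + s) ε
  have hall := (v1.concat z1).concat v2
  refine ⟨_, ?_, hall.mono ?_⟩
  · rw [hkh, show b - (b + h / 2) = -(h / 2) by ring, show b + h / 2 + s - (b + s) = h / 2 by ring,
      abs_neg, abs_of_nonneg (by positivity)]
    have e1 : k * (2 * s + 2 * h) = 2 * k * s + s := by
      have : k * (2 * s + 2 * h) = 2 * k * s + k * (2 * h) := by ring
      rw [this, hkh]
    rw [e1]
    have e2 : 2 * k * s ≤ 2 * (s / (4 * ε) + 1) * s := by gcongr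
    have e3 : 2 * (s / (4 * ε) + 1) * s = s ^ 2 / (2 * ε) + 2 * s := by
      field_simp; ring
    linarith
  · rintro e ⟨z, ⟨hz0, hz1, hz2⟩, rfl⟩
    refine Or.inl (Or.inr ⟨z, ⟨hz0, by linarith, ?_⟩, rfl⟩)
    rw [hkh]; linarith

/-- Squares of a fixed side covering a plane compact set with almost the same area. -/
theorem square_cover {F : Set ℂ} (hF : IsCompact F) {η : ℝ} (hη : 0 < η) :
    ∃ (s : ℝ) (J : Finset (ℤ × ℤ)), 0 < s ∧
      F ⊆ (⋃ j ∈ J, Rect (j.1 * s) s (j.2 * s) (j.2 * s + s)) ∧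
      ENNReal.ofReal (J.card * s ^ 2) ≤ volume F + ENNReal.ofReal η := by
  have hFfin : volume F ≠ ⊤ := hF.measure_lt_top.ne
  have hlt : volume F < volume F + ENNReal.ofReal η :=
    ENNReal.lt_add_right hFfin (by simpa using hη)
  have hlim := tendsto_measure_cthickening_of_isCompact (μ := (volume : Measure ℂ)) hF
  have hev := (tendsto_order.1 hlim).2 _ hlt
  obtain ⟨r, hr, hr0⟩ := ((hev.filter_mono (nhdsWithin_le_nhds (s := Ioi (0 : ℝ)))).and
    self_mem_nhdsWithin).exists
  have hr0' : 0 < r := hr0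
  set s : ℝ := r / 2 with hs
  have hs0 : 0 < s := by positivity
  set idx : ℂ → ℤ × ℤ := fun z => (⌊z.re / s⌋, ⌊z.im / s⌋) with hidx
  have hfin : (idx '' F).Finite := by
    obtain ⟨R, hR⟩ := hF.isBounded.subset_closedBall (0 : ℂ)
    have hb : idx '' F ⊆ (Icc ⌊-(|R|) / s⌋ ⌊|R| / s⌋) ×ˢ (Icc ⌊-(|R|) / s⌋ ⌊|R| / s⌋) := by
      rintro _ ⟨z, hz, rfl⟩
      have h1 := hR hz
      rw [mem_closedBall_zero_iff] at h1
      have h2 : |z.re| ≤ |R| := (Complex.abs_re_le_norm z).trans (h1.trans (le_abs_self R))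
      have h3 : |z.im| ≤ |R| := (Complex.abs_im_le_norm z).trans (h1.trans (le_abs_self R))
      rw [abs_le] at h2 h3
      refine ⟨⟨?_, ?_⟩, ⟨?_, ?_⟩⟩
      · exact Int.floor_le_floor (div_le_div_of_nonneg_right h2.1 hs0.le)
      · exact Int.floor_le_floor (div_le_div_of_nonneg_right h2.2 hs0.le)
      · exact Int.floor_le_floor (div_le_div_of_nonneg_right h3.1 hs0.le)
      · exact Int.floor_le_floor (div_le_div_of_nonneg_right h3.2 hs0.le)
    exact ((finite_Icc _ _).prod (finite_Icc _ _)).subset hb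
  set J := hfin.toFinset with hJ
  refine ⟨s, J, hs0, ?_, ?_⟩
  · intro z hz
    simp only [mem_iUnion]
    refine ⟨idx z, by rw [hJ, Set.Finite.mem_toFinset]; exact ⟨z, hz, rfl⟩, ?_⟩
    have h1 := Int.floor_le (z.re / s)
    have h2 := Int.lt_floor_add_one (z.re / s)
    have h3 := Int.floor_le (z.im / s)
    have h4 := Int.lt_floor_add_one (z.im / s)
    rw [le_div_iff₀ hs0] at h1 h3
    rw [div_lt_iff₀ hs0] at h2 h4
    refine ⟨⟨h1, ?_⟩, ⟨h3, ?_⟩⟩
    · show z.re ≤ ⌊z.re / s⌋ * s + s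
      linarith
    · show z.im < ⌊z.im / s⌋ * s + s
      linarith
  · set Q : ℤ × ℤ → Set ℂ := fun j => Complex.measurableEquivRealProd ⁻¹'
      (Ico (j.1 * s) (j.1 * s + s) ×ˢ Ico (j.2 * s) (j.2 * s + s)) with hQ
    have hQm : ∀ j, MeasurableSet (Q j) := fun j =>
      Complex.measurableEquivRealProd.measurable (measurableSet_Ico.prod measurableSet_Ico)
    have hQv : ∀ j, volume (Q j) = ENNReal.ofReal (s ^ 2) := by
      intro j
      rw [hQ]
      simp only
      rw [Complex.volume_preserving_equiv_real_prod.measure_preimage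
        (measurableSet_Ico.prod measurableSet_Ico).nullMeasurableSet, Measure.volume_eq_prod,
        Measure.prod_prod, Real.volume_Ico, Real.volume_Ico, ← ENNReal.ofReal_mul (by simp [hs0.le])]
      congr 1; ring
    have hmemQ : ∀ j z, z ∈ Q j → idx z = j := by
      intro j z hz
      obtain ⟨⟨h1, h2⟩, ⟨h3, h4⟩⟩ := hz
      have e1 : (Complex.measurableEquivRealProd z).1 = z.re := rfl
      have e2 : (Complex.measurableEquivRealProd z).2 = z.im := rfl
      rw [e1] at h1 h2
      rw [e2] at h3 h4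
      rw [hidx]
      apply Prod.ext
      · show ⌊z.re / s⌋ = j.1
        rw [Int.floor_eq_iff, le_div_iff₀ hs0, div_lt_iff₀ hs0]
        constructor <;> linarith
      · show ⌊z.im / s⌋ = j.2
        rw [Int.floor_eq_iff, le_div_iff₀ hs0, div_lt_iff₀ hs0]
        constructor <;> linarith
    have hdisj : (J : Set (ℤ × ℤ)).PairwiseDisjoint Q := by
      intro i _ j _ hij
      rw [Function.onFun, Set.disjoint_left]
      intro z hzi hzj
      exact hij ((hmemQ i z hzi).symm.trans (hmemQ j z hzj))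
    have hsub : (⋃ j ∈ J, Q j) ⊆ Metric.cthickening r F := by
      intro z hz
      simp only [mem_iUnion] at hz
      obtain ⟨j, hj, hzj⟩ := hz
      rw [hJ, Set.Finite.mem_toFinset] at hj
      obtain ⟨w, hw, hwj⟩ := hj
      have hzj' := hmemQ j z hzj
      have hzw : idx z = idx w := hzj'.trans hwj.symm
      have k1 : ⌊z.re / s⌋ = ⌊w.re / s⌋ := congrArg Prod.fst hzw
      have k2 : ⌊z.im / s⌋ = ⌊w.im / s⌋ := congrArg Prod.snd hzw
      have hb : ∀ x y : ℝ, ⌊x / s⌋ = ⌊y / s⌋ → |x - y| ≤ s := by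
        intro x y hxy
        have h := Int.abs_sub_lt_one_of_floor_eq_floor hxy
        rw [← sub_div, abs_div, abs_of_pos hs0, div_lt_one hs0] at h
        exact h.le
      apply Metric.mem_cthickening_of_dist_le z w r F hw
      rw [Complex.dist_eq]
      calc ‖z - w‖ ≤ |(z - w).re| + |(z - w).im| := Complex.norm_le_abs_re_add_abs_im _
        _ ≤ s + s := by
            rw [Complex.sub_re, Complex.sub_im]
            exact add_le_add (hb _ _ k1) (hb _ _ k2)
        _ = r := by rw [hs]; ring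
    calc ENNReal.ofReal (J.card * s ^ 2) = ∑ j ∈ J, volume (Q j) := by
          rw [Finset.sum_congr rfl fun j _ => hQv j, Finset.sum_const, nsmul_eq_mul,
            ENNReal.ofReal_mul (by positivity)]
          simp
      _ = volume (⋃ j ∈ J, Q j) := (measure_biUnion_finset hdisj fun j _ => hQm j).symm
      _ ≤ volume (Metric.cthickening r F) := measure_mono hsub
      _ ≤ _ := hr.le

/-! ### Upper bound -/

theorem halfspace_not_interior {K : Set E3} {u x z : E3} (hu : ‖u‖ = 1)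
    (hK : ∀ y ∈ K, inner ℝ u (y - x) ≤ 0) (hz : 0 ≤ inner ℝ u (z - x)) : z ∉ interior K := by
  intro hi
  have h1 := hK z (interior_subset hi)
  refine not_mem_interior_of_plane (K := K) (b := inner ℝ u x) hu (fun y hy => ?_) ?_ hi
  · have := hK y hy
    rw [inner_sub_right] at this; linarith
  · rw [inner_sub_right] at h1 hz; linarith

theorem seg_conn {K : Set E3} {p : E3 → E3} (hp : IsProj K p) (hc : IsClosed K) {u x : E3}
    (hu : ‖u‖ = 1) (hK : ∀ y ∈ K, inner ℝ u (y - x) ≤ 0) {z w : E3}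
    (hz : 0 ≤ inner ℝ u (z - x)) (hw : 0 ≤ inner ℝ u (w - x)) (ε : ℝ) :
    Cov (frontier K) ε (dist z w) (p z) (p w) ∅ := by
  apply seg_cov hp.lipschitz _ (by simp)
  intro q hq
  apply hp.mem_frontier hc
  apply halfspace_not_interior hu hK
  obtain ⟨a, b, ha, hb, hab, rfl⟩ := hq
  have : a • z + b • w - x = a • (z - x) + b • (w - x) := by
    have hx : x = (a + b) • x := by rw [hab, one_smul]
    nth_rw 1 [hx]
    module
  rw [this, inner_add_right, inner_smul_right, inner_smul_right]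
  positivity

theorem conn_aux {K : Set E3} {p : E3 → E3} (hp : IsProj K p) (hc : IsClosed K) {u v x y : E3}
    (hx : x ∈ K) (hy : y ∈ K)
    (hu : ‖u‖ = 1) (hKu : ∀ z ∈ K, inner ℝ u (z - x) ≤ 0)
    (hv : ‖v‖ = 1) (hKv : ∀ z ∈ K, inner ℝ v (z - y) ≤ 0) (huv : -1 < inner ℝ u v) :
    ∃ D : ℝ, ∀ ε, Cov (frontier K) ε D x y ∅ := by
  set c : ℝ := 1 + inner ℝ u v with hcdef
  have hc0 : 0 < c := by linarith
  set t : ℝ := (|inner ℝ u x| + |inner ℝ v y|) / c with ht
  have ht0 : 0 ≤ t := by positivity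
  set z : E3 := t • (u + v) with hz
  have huu : inner ℝ u u = (1 : ℝ) := by rw [real_inner_self_eq_norm_sq, hu]; norm_num
  have hvv : inner ℝ v v = (1 : ℝ) := by rw [real_inner_self_eq_norm_sq, hv]; norm_num
  have htc : t * c = |inner ℝ u x| + |inner ℝ v y| := by rw [ht]; field_simp
  have h1 : 0 ≤ inner ℝ u (z - x) := by
    rw [inner_sub_right, hz, inner_smul_right, inner_add_right, huu, ← hcdef, htc]
    have := le_abs_self (inner ℝ u x)
    have := abs_nonneg (inner ℝ v y)
    linarith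
  have h2 : 0 ≤ inner ℝ v (z - y) := by
    rw [inner_sub_right, hz, inner_smul_right, inner_add_right, hvv, real_inner_comm u v,
      add_comm, ← hcdef, htc]
    have := le_abs_self (inner ℝ v y)
    have := abs_nonneg (inner ℝ u x)
    linarith
  refine ⟨dist x z + dist z y, fun ε => ?_⟩
  have c1 := seg_conn hp hc hu hKu (z := x) (w := z) (by simp) h1 ε
  have c2 := seg_conn hp hc hv hKv (z := z) (w := y) h2 (by simp) ε
  rw [hp.eq_self hx] at c1
  rw [hp.eq_self hy] at c2
  exact (c1.concat c2).mono (by simp)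

/-- Any two boundary points of a convex body are joined by a rectifiable curve in the boundary. -/
theorem conn {K : Set E3} (hK : Convex ℝ K) (hcomp : IsCompact K) (hne : (interior K).Nonempty)
    {x y : E3} (hx : x ∈ frontier K) (hy : y ∈ frontier K) :
    ∃ D : ℝ, ∀ ε, Cov (frontier K) ε D x y ∅ := by
  have hc := hcomp.isClosed
  obtain ⟨p, hp⟩ := exists_isProj hK hc (hne.mono interior_subset)
  obtain ⟨u, hu, hKu⟩ := exists_support hK hc hne hx
  obtain ⟨v, hv, hKv⟩ := exists_support hK hc hne hy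
  have hxK : x ∈ K := hc.frontier_subset hx
  have hyK : y ∈ K := hc.frontier_subset hy
  -- a unit vector orthogonal to `u`
  obtain ⟨w, hw, huw, hvw⟩ : ∃ w : E3, ‖w‖ = 1 ∧ inner ℝ u w = 0 ∧ 0 ≤ inner ℝ v w := by
    obtain ⟨ψ, hψ⟩ := exists_plane_isometry hu 0
    have h0 : inner ℝ u (ψ 0) = 0 := by
      have : ψ 0 ∈ range ψ := ⟨0, rfl⟩
      rw [hψ] at this; exact this
    have h1 : inner ℝ u (ψ 1) = 0 := by
      have : ψ 1 ∈ range ψ := ⟨1, rfl⟩
      rw [hψ] at this; exact this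
    have h2 : ‖ψ 1 - ψ 0‖ = 1 := by
      rw [← dist_eq_norm, ψ.isometry.dist_eq]; simp
    rcases le_total 0 (inner ℝ v (ψ 1 - ψ 0)) with h | h
    · exact ⟨ψ 1 - ψ 0, h2, by rw [inner_sub_right, h0, h1]; simp, h⟩
    · refine ⟨-(ψ 1 - ψ 0), by rw [norm_neg, h2], ?_, ?_⟩
      · rw [inner_neg_right, inner_sub_right, h0, h1]; simp
      · rw [inner_neg_right]; linarith
  -- a support point with outer normal `w`
  obtain ⟨m, hm, hmax⟩ := hcomp.exists_isMaxOn ⟨x, hxK⟩ (f := fun z => inner ℝ w z)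
    (by fun_prop)
  have hKw : ∀ z ∈ K, inner ℝ w (z - m) ≤ 0 := by
    intro z hz
    have : inner ℝ w z ≤ inner ℝ w m := hmax hz
    rw [inner_sub_right]; linarith
  obtain ⟨D1, h1⟩ := conn_aux hp hc hxK hm hu hKu hw hKw (by rw [huw]; norm_num)
  obtain ⟨D2, h2⟩ := conn_aux hp hc hm hyK hw hKw hv hKv (by
    rw [real_inner_comm]; linarith)
  exact ⟨D1 + D2, fun ε => ((h1 ε).concat (h2 ε)).mono (by simp)⟩

/-- `E` can be covered by a curve in `S` of length at most `A/(2ε) + C`, for all `ε`. -/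
def Cheap (S : Set E3) (E : Set E3) (A : ℝ) : Prop :=
  ∃ C : ℝ, ∃ x ∈ S, ∃ y ∈ S, ∀ ε : ℝ, 0 < ε → ∃ ℓ ≤ A / (2 * ε) + C, Cov S ε ℓ x y E

theorem Cheap.mono {S E E' : Set E3} {A A' : ℝ} (h : Cheap S E A) (hE : E' ⊆ E) (hA : A ≤ A') :
    Cheap S E' A' := by
  obtain ⟨C, x, hx, y, hy, h⟩ := h
  refine ⟨C, x, hx, y, hy, fun ε hε => ?_⟩
  obtain ⟨ℓ, hℓ, hc⟩ := h ε hε
  refine ⟨ℓ, hℓ.trans ?_, hc.mono hE⟩
  have : A / (2 * ε) ≤ A' / (2 * ε) := by gcongr
  linarith

theorem Cheap.empty {K : Set E3} (hK : Convex ℝ K) (hcomp : IsCompact K)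
    (hne : (interior K).Nonempty) (hf : (frontier K).Nonempty) : Cheap (frontier K) ∅ 0 := by
  obtain ⟨x, hx⟩ := hf
  obtain ⟨D, hD⟩ := conn hK hcomp hne hx hx
  exact ⟨D, x, hx, x, hx, fun ε _ => ⟨D, by simp, hD ε⟩⟩

theorem Cheap.union {K : Set E3} (hK : Convex ℝ K) (hcomp : IsCompact K)
    (hne : (interior K).Nonempty) {E₁ E₂ : Set E3} {A₁ A₂ : ℝ} (h1 : Cheap (frontier K) E₁ A₁)
    (h2 : Cheap (frontier K) E₂ A₂) : Cheap (frontier K) (E₁ ∪ E₂) (A₁ + A₂) := by
  obtain ⟨C₁, x₁, hx₁, y₁, hy₁, h1⟩ := h1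
  obtain ⟨C₂, x₂, hx₂, y₂, hy₂, h2⟩ := h2
  obtain ⟨D, hD⟩ := conn hK hcomp hne hy₁ hx₂
  refine ⟨C₁ + D + C₂, x₁, hx₁, y₂, hy₂, fun ε hε => ?_⟩
  obtain ⟨ℓ₁, hℓ₁, hc₁⟩ := h1 ε hε
  obtain ⟨ℓ₂, hℓ₂, hc₂⟩ := h2 ε hε
  refine ⟨ℓ₁ + D + ℓ₂, ?_, ((hc₁.concat (hD ε)).concat hc₂).mono ?_⟩
  · rw [add_div]; linarith
  · rintro e (he | he)
    · exact Or.inl (Or.inl he)
    · exact Or.inr he

theorem Cheap.biUnion {K : Set E3} (hK : Convex ℝ K) (hcomp : IsCompact K)
    (hne : (interior K).Nonempty) (hf : (frontier K).Nonempty) {ι : Type*} (J : Finset ι)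
    (E : ι → Set E3) (A : ι → ℝ) (h : ∀ j ∈ J, Cheap (frontier K) (E j) (A j)) :
    Cheap (frontier K) (⋃ j ∈ J, E j) (∑ j ∈ J, A j) := by
  classical
  induction J using Finset.induction_on with
  | empty => simpa using Cheap.empty hK hcomp hne hf
  | insert i J hi ih =>
    rw [Finset.sum_insert hi, Finset.set_biUnion_insert]
    exact (h i (Finset.mem_insert_self _ _)).union hK hcomp hne
      (ih fun j hj => h j (Finset.mem_insert_of_mem hj))

theorem cheap_plane {K : Set E3} (hK : Convex ℝ K) (hcomp : IsCompact K)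
    (hne : (interior K).Nonempty) (hf : (frontier K).Nonempty) {f : ℂ → E3}
    (hfl : LipschitzWith 1 f) (hfS : ∀ z, f z ∈ frontier K) {F : Set ℂ} (hF : IsCompact F) {η : ℝ}
    (hη : 0 < η) : Cheap (frontier K) (f '' F) ((volume F).toReal + η) := by
  obtain ⟨s, J, hs, hcov, hJ⟩ := square_cover hF hη
  have h1 : ∀ j ∈ J, Cheap (frontier K) (f '' Rect (j.1 * s) s (j.2 * s) (j.2 * s + s)) (s ^ 2) := by
    intro j _
    refine ⟨4 * s, _, hfS ⟨j.1 * s, j.2 * s⟩, _, hfS ⟨j.1 * s, j.2 * s + s⟩, fun ε hε => ?_⟩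
    exact square_cov hfl hfS hs hε
  have h2 := Cheap.biUnion hK hcomp hne hf J _ _ h1
  refine h2.mono ?_ ?_
  · rintro _ ⟨z, hz, rfl⟩
    have := hcov hz
    simp only [mem_iUnion] at this ⊢
    obtain ⟨j, hj, hzj⟩ := this
    exact ⟨j, hj, z, hzj, rfl⟩
  · rw [Finset.sum_const, nsmul_eq_mul]
    have hfin : volume F ≠ ⊤ := hF.measure_lt_top.ne
    rw [← ENNReal.ofReal_toReal hfin, ← ENNReal.ofReal_add ENNReal.toReal_nonneg hη.le] at hJ
    exact (ENNReal.ofReal_le_ofReal_iff (by positivity)).1 hJ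

theorem face_lift (T : Finset (E3 × ℝ)) {q : E3 × ℝ} (hu : ‖q.1‖ = 1)
    (hb : Bornology.IsBounded (polyP T)) :
    ∃ ψ : ℂ →ᵃⁱ[ℝ] E3, range ψ = {x | inner ℝ q.1 x = q.2} ∧ ∃ F : Set ℂ, IsCompact F ∧
      ψ '' F = face T q := by
  obtain ⟨ψ, hψ⟩ := exists_plane_isometry hu q.2
  refine ⟨ψ, hψ, ψ ⁻¹' face T q, ?_, ?_⟩
  · have hcl : IsClosed (ψ ⁻¹' face T q) := (face_closed T q).preimage ψ.continuous
    have hbd : Bornology.IsBounded (ψ ⁻¹' face T q) := by
      have h1 : Bornology.IsBounded (face T q) := hb.subset fun x hx => hx.1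
      exact ψ.isometry.antilipschitz.isBounded_preimage h1
    exact Metric.isCompact_of_isClosed_isBounded hcl hbd
  · rw [image_preimage_eq_iff, hψ]
    exact fun x hx => hx.2

theorem face_measure_lt_top (T : Finset (E3 × ℝ)) {q : E3 × ℝ} (hu : ‖q.1‖ = 1)
    (hb : Bornology.IsBounded (polyP T)) : μHE[2] (face T q) < ⊤ := by
  obtain ⟨ψ, _, F, hF, hFq⟩ := face_lift T hu hb
  rw [← hFq, muHE_image ψ.isometry]
  exact hF.measure_lt_top

/-- The boundary of a convex body inside a polytope is cheap, with the area of the polytope. -/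
theorem cheap_of_polyP {K : Set E3} (hK : Convex ℝ K) (hcomp : IsCompact K)
    (hne : (interior K).Nonempty) (hf : (frontier K).Nonempty) {T : Finset (E3 × ℝ)}
    (hT : ∀ q ∈ T, ‖q.1‖ = 1) (hKT : K ⊆ polyP T) (hb : Bornology.IsBounded (polyP T)) {η : ℝ}
    (hη : 0 < η) : Cheap (frontier K) (frontier K) ((μHE[2] (frontier (polyP T))).toReal + η) := by
  obtain ⟨p, hp⟩ := exists_isProj hK hcomp.isClosed (hne.mono interior_subset)
  set η' : ℝ := η / (T.card + 1) with hη'
  have hη'0 : 0 < η' := by positivity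
  have h1 : ∀ q ∈ T, Cheap (frontier K) (p '' face T q) ((μHE[2] (face T q)).toReal + η') := by
    intro q hq
    obtain ⟨ψ, hψ, F, hF, hFq⟩ := face_lift T (hT q hq) hb
    have hfS : ∀ z, (p ∘ ψ) z ∈ frontier K := by
      intro z
      apply hp.mem_frontier hcomp.isClosed
      have hz : ψ z ∈ {x | inner ℝ q.1 x = q.2} := by rw [← hψ]; exact ⟨z, rfl⟩
      exact not_mem_interior_of_plane (K := K) (hT q hq) (fun y hy => hKT hy q hq) hz
    have hfl : LipschitzWith 1 (p ∘ ψ) := by
      have := hp.lipschitz.comp ψ.isometry.lipschitz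
      simpa using this
    have h2 := cheap_plane hK hcomp hne hf hfl hfS hF hη'0
    rw [image_comp] at h2
    rwa [← hFq, muHE_image ψ.isometry]
  have h2 := Cheap.biUnion hK hcomp hne hf T _ _ h1
  have hneP : (interior (polyP T)).Nonempty := hne.mono (interior_mono hKT)
  refine h2.mono ?_ ?_
  · intro x hx
    obtain ⟨y, hy, rfl⟩ := frontier_subset_image hp hK hcomp.isClosed hne hKT hb hx
    have := frontier_polyP_subset T hy
    simp only [mem_iUnion] at this ⊢
    obtain ⟨q, hq, hyq⟩ := this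
    exact ⟨q, hq, y, hyq, rfl⟩
  · rw [frontier_polyP_measure hT hneP, ENNReal.toReal_sum, Finset.sum_add_distrib,
      Finset.sum_const, nsmul_eq_mul]
    · have : (T.card : ℝ) * η' ≤ η := by
        rw [hη', mul_div_assoc', div_le_iff₀ (by positivity)]
        nlinarith
      linarith
    · intro q hq
      exact (face_measure_lt_top T (hT q hq) hb).ne

/-! ### Homotheties -/

theorem homothety_frontier (K : Set E3) (c : E3) {t : ℝ} (ht : 0 < t) :
    μHE[2] (frontier (AffineMap.homothety c t '' K)) =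
      ENNReal.ofReal (t ^ 2) * μHE[2] (frontier K) := by
  let e : E3 ≃ₜ E3 := ((Homeomorph.subRight c).trans (Homeomorph.smulOfNeZero t ht.ne')).trans
    (Homeomorph.addRight c)
  have he : ∀ s : Set E3, AffineMap.homothety c t '' s = e '' s := by
    intro s
    apply image_congr
    intro x _
    rw [AffineMap.homothety_apply]
    rfl
  rw [he, ← e.image_frontier, ← he, euclideanHausdorffMeasure_homothety_image 2 c ht.ne']
  rw [ENNReal.smul_def, smul_eq_mul]
  congr 1
  rw [ENNReal.coe_pow, ENNReal.ofReal_pow ht.le]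
  congr 1
  rw [ENNReal.ofReal, ENNReal.coe_inj]
  ext
  rw [coe_nnnorm, Real.norm_of_nonneg ht.le, Real.coe_toNNReal _ ht.le]

/-- The nearest point projection shows monotonicity of the surface area of convex bodies. -/
theorem area_mono {K C : Set E3} (hK : Convex ℝ K) (hc : IsClosed K) (hne : (interior K).Nonempty)
    (hKC : K ⊆ C) (hC : Bornology.IsBounded C) : μHE[2] (frontier K) ≤ μHE[2] (frontier C) := by
  obtain ⟨p, hp⟩ := exists_isProj hK hc (hne.mono interior_subset)
  exact (measure_mono (frontier_subset_image hp hK hc hne hKC hC)).trans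
    (muHE_lipschitz_image hp.lipschitz _)

theorem exists_outer {K : Set E3} (hK : Convex ℝ K) (hcomp : IsCompact K)
    (hne : (interior K).Nonempty) {t : ℝ} (ht : 1 < t) :
    ∃ T : Finset (E3 × ℝ), (∀ q ∈ T, ‖q.1‖ = 1) ∧ K ⊆ polyP T ∧ Bornology.IsBounded (polyP T) ∧
      μHE[2] (frontier (polyP T)) ≤ ENNReal.ofReal (t ^ 2) * μHE[2] (frontier K) := by
  obtain ⟨c, hc⟩ := hne
  have hsub := hK.subset_interior_image_homothety_of_one_lt hc t ht
  have hCcomp : IsCompact (AffineMap.homothety c t '' K) :=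
    hcomp.image (AffineMap.homothety_continuous c t)
  obtain ⟨T, hT, h1, h2⟩ := exists_polyP hK hcomp ⟨c, interior_subset hc⟩ hCcomp hsub
  have hb : Bornology.IsBounded (AffineMap.homothety c t '' K) := hCcomp.isBounded
  refine ⟨T, hT, h1, hb.subset (h2.trans interior_subset), ?_⟩
  rw [← homothety_frontier K c (by linarith)]
  exact area_mono (polyP_convex T) (polyP_closed T) ⟨c, interior_mono h1 hc⟩
    (h2.trans interior_subset) hb

theorem exists_inner {K : Set E3} (hK : Convex ℝ K) (hcomp : IsCompact K)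
    (hne : (interior K).Nonempty) {t : ℝ} (ht : 1 < t) :
    ∃ T : Finset (E3 × ℝ), (∀ q ∈ T, ‖q.1‖ = 1) ∧ polyP T ⊆ interior K ∧
      (interior (polyP T)).Nonempty ∧
      ENNReal.ofReal (t⁻¹ ^ 2) * μHE[2] (frontier K) ≤ μHE[2] (frontier (polyP T)) := by
  obtain ⟨c, hc⟩ := hne
  have ht0 : 0 < t := by linarith
  set D := AffineMap.homothety c t⁻¹ '' K with hD
  have hDconv : Convex ℝ D := hK.affine_image _
  have hDcomp : IsCompact D := hcomp.image (AffineMap.homothety_continuous c _)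
  have hback : AffineMap.homothety c t '' D = K := by
    rw [hD, ← image_comp]
    have : (AffineMap.homothety c t : E3 → E3) ∘ (AffineMap.homothety c t⁻¹) = id := by
      ext x
      simp only [Function.comp, AffineMap.homothety_apply, vsub_eq_sub, vadd_eq_add,
        add_sub_cancel_right, smul_smul, mul_inv_cancel₀ ht0.ne', one_smul, sub_add_cancel, id]
    rw [this, image_id]
  have hcD : c ∈ interior D := by
    rw [hD]
    have hopen : IsOpen (AffineMap.homothety c t⁻¹ '' interior K) :=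
      AffineMap.homothety_isOpenMap c t⁻¹ (by positivity) _ isOpen_interior
    have hsub : AffineMap.homothety c t⁻¹ '' interior K ⊆ AffineMap.homothety c t⁻¹ '' K :=
      image_mono interior_subset
    exact interior_maximal hsub hopen ⟨c, hc, by simp⟩
  have hsub : D ⊆ interior K := by
    have := hDconv.subset_interior_image_homothety_of_one_lt hcD t ht
    rwa [hback] at this
  obtain ⟨T, hT, h1, h2⟩ := exists_polyP hDconv hDcomp ⟨c, interior_subset hcD⟩ hcomp hsub
  refine ⟨T, hT, h2, ⟨c, interior_mono h1 hcD⟩, ?_⟩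
  rw [← homothety_frontier K c (by positivity)]
  exact area_mono hDconv hDcomp.isClosed ⟨c, hcD⟩ h1
    (hcomp.isBounded.subset (h2.trans interior_subset))

theorem frontier_nonempty {K : Set E3} (hcomp : IsCompact K)
    (hne : (interior K).Nonempty) : (frontier K).Nonempty := by
  rw [nonempty_iff_ne_empty]
  intro h
  have h1 : IsClopen K := isClopen_iff_frontier_eq_empty.2 h
  rcases isClopen_iff.1 h1 with h2 | h2
  · rw [h2] at hne; simp at hne
  · rw [h2] at hcomp
    exact noncompact_univ E3 hcomp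

theorem area_lt_top {K : Set E3} (hK : Convex ℝ K) (hcomp : IsCompact K)
    (hne : (interior K).Nonempty) : μHE[2] (frontier K) < ⊤ := by
  obtain ⟨c, hc⟩ := hne
  have hsub := hK.subset_interior_image_homothety_of_one_lt hc 2 (by norm_num)
  have hCcomp : IsCompact (AffineMap.homothety c (2 : ℝ) '' K) :=
    hcomp.image (AffineMap.homothety_continuous c 2)
  obtain ⟨T, hT, h1, h2⟩ := exists_polyP hK hcomp ⟨c, interior_subset hc⟩ hCcomp hsub
  have hb : Bornology.IsBounded (polyP T) := hCcomp.isBounded.subset (h2.trans interior_subset)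
  refine (area_mono hK hcomp.isClosed ⟨c, hc⟩ h1 hb).trans_lt ?_
  rw [frontier_polyP_measure hT ⟨c, interior_mono h1 hc⟩]
  exact ENNReal.sum_lt_top.2 fun q hq => face_measure_lt_top T (hT q hq) hb

/-- **Main theorem.**  For every convex surface `S = ∂K` of area `A`,
`ε · L_S(ε) → A / 2` as `ε → 0+`. -/
theorem result (K : Set E3) (hK : Convex ℝ K) (hcomp : IsCompact K)
    (hne : (interior K).Nonempty) :
    μHE[2] (frontier K) < ⊤ ∧ (∀ ε : ℝ, 0 < ε → shortestDense (frontier K) ε < ⊤) ∧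
      Tendsto (fun ε : ℝ => ε * (shortestDense (frontier K) ε).toReal) (𝓝[>] 0)
        (𝓝 ((μHE[2] (frontier K)).toReal / 2)) := by
  have hA := area_lt_top hK hcomp hne
  set A : ℝ := (μHE[2] (frontier K)).toReal with hAdef
  have hA0 : 0 ≤ A := ENNReal.toReal_nonneg
  have hAr : μHE[2] (frontier K) = ENNReal.ofReal A := (ENNReal.ofReal_toReal hA.ne).symm
  have hf := frontier_nonempty hcomp hne
  have hcheap : ∀ t : ℝ, 1 < t → ∀ η : ℝ, 0 < η →
      Cheap (frontier K) (frontier K) (t ^ 2 * A + η) := by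
    intro t ht η hη
    obtain ⟨T, hT, h1, h2, h3⟩ := exists_outer hK hcomp hne ht
    refine (cheap_of_polyP hK hcomp hne hf hT h1 h2 hη).mono (Subset.refl _) ?_
    have h4 : (μHE[2] (frontier (polyP T))).toReal ≤ t ^ 2 * A := by
      apply ENNReal.toReal_le_of_le_ofReal (by positivity)
      rw [ENNReal.ofReal_mul (by positivity), ← hAr]
      exact h3
    linarith
  have hupper : ∀ B C : ℝ, (∃ x ∈ frontier K, ∃ y ∈ frontier K, ∀ ε : ℝ, 0 < ε →
      ∃ ℓ ≤ B / (2 * ε) + C, Cov (frontier K) ε ℓ x y (frontier K)) → ∀ ε : ℝ, 0 < ε →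
      shortestDense (frontier K) ε ≤ ENNReal.ofReal (B / (2 * ε) + C) := by
    intro B C h ε hε
    obtain ⟨x, _, y, _, h⟩ := h
    obtain ⟨ℓ, hℓ, hc⟩ := h ε hε
    obtain ⟨γ, hγ, hγ'⟩ := hc.exists_dense
    exact (iInf₂_le γ hγ).trans (hγ'.trans (ENNReal.ofReal_le_ofReal hℓ))
  have hfin : ∀ ε : ℝ, 0 < ε → shortestDense (frontier K) ε < ⊤ := by
    intro ε hε
    obtain ⟨C, h⟩ := hcheap 2 (by norm_num) 1 one_pos
    exact (hupper _ C h ε hε).trans_lt ENNReal.ofReal_lt_top
  refine ⟨hA, hfin, ?_⟩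
  rw [tendsto_order]
  constructor
  · intro b hb
    by_cases hb0 : b < 0
    · filter_upwards [self_mem_nhdsWithin] with ε hε
      have hε' : 0 < ε := hε
      have : 0 ≤ ε * (shortestDense (frontier K) ε).toReal := by positivity
      linarith
    push Not at hb0
    -- choose a smaller polytope
    set a : ℝ := b + A / 2 with ha
    have ha0 : 0 ≤ a := by positivity
    have haA : a < A := by rw [ha]; linarith
    have hA1 : 0 < A := by linarith
    have hlim : Tendsto (fun t : ℝ => t⁻¹ ^ 2 * A) (𝓝[>] 1) (𝓝 A) := by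
      have hc : ContinuousAt (fun t : ℝ => t⁻¹ ^ 2 * A) 1 := by
        apply ContinuousAt.mul _ continuousAt_const
        exact (continuousAt_inv₀ one_ne_zero).pow 2
      have h := hc.tendsto
      simp only [inv_one, one_pow, one_mul] at h
      exact h.mono_left nhdsWithin_le_nhds
    obtain ⟨t, ht, ht1⟩ := (((tendsto_order.1 hlim).1 a haA).and self_mem_nhdsWithin).exists
    have ht1' : 1 < t := ht1
    obtain ⟨T, hT, h1, h2, h3⟩ := exists_inner hK hcomp hne ht1'
    have h4 : ENNReal.ofReal a < μHE[2] (frontier (polyP T)) := by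
      refine lt_of_lt_of_le ?_ h3
      rw [hAr, ← ENNReal.ofReal_mul (by positivity)]
      exact (ENNReal.ofReal_lt_ofReal_iff (lt_of_le_of_lt ha0 ht)).2 ht
    have h5 := lower_bound hT h2 hcomp h1 h4
    filter_upwards [h5, self_mem_nhdsWithin] with ε h6 h7
    have hε : 0 < ε := h7
    have h8 : ENNReal.ofReal (a / 2 / ε) ≤ shortestDense (frontier K) ε := by
      refine le_iInf fun γ => le_iInf fun hγ => ?_
      have h9 := h6 γ hγ
      rw [← ENNReal.ofReal_toReal hγ.2.1.ne]
      apply ENNReal.ofReal_le_ofReal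
      rw [div_le_iff₀ hε]; linarith
    have h10 : a / 2 / ε ≤ (shortestDense (frontier K) ε).toReal :=
      (ENNReal.ofReal_le_iff_le_toReal (hfin ε hε).ne).1 h8
    rw [div_le_iff₀ hε] at h10
    rw [ha] at h10
    linarith
  · intro b hb
    -- choose a larger polytope
    have hlim : Tendsto (fun t : ℝ => (t ^ 2 * A + (t - 1)) / 2) (𝓝[>] 1) (𝓝 (A / 2)) := by
      have hc : Continuous (fun t : ℝ => (t ^ 2 * A + (t - 1)) / 2) := by fun_prop
      have h := hc.tendsto 1
      simp only [one_pow, one_mul, sub_self, add_zero] at h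
      exact h.mono_left nhdsWithin_le_nhds
    obtain ⟨t, ht, ht1⟩ := (((tendsto_order.1 hlim).2 b hb).and self_mem_nhdsWithin).exists
    have ht1' : 1 < t := ht1
    obtain ⟨C, h1⟩ := hcheap t ht1' (t - 1) (by linarith)
    set B : ℝ := t ^ 2 * A + (t - 1) with hB
    have hB0 : 0 ≤ B := by
      have : 0 ≤ t ^ 2 * A := by positivity
      linarith
    have h2 := hupper B C h1
    have hlim2 : Tendsto (fun ε : ℝ => B / 2 + |C| * ε) (𝓝[>] 0) (𝓝 (B / 2)) := by
      have hc : Continuous (fun ε : ℝ => B / 2 + |C| * ε) := by fun_prop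
      have h := hc.tendsto 0
      simp only [mul_zero, add_zero] at h
      exact h.mono_left nhdsWithin_le_nhds
    filter_upwards [(tendsto_order.1 hlim2).2 b ht, self_mem_nhdsWithin] with ε h3 h4
    have hε : 0 < ε := h4
    have h5 : shortestDense (frontier K) ε ≤ ENNReal.ofReal (B / (2 * ε) + |C|) :=
      (h2 ε hε).trans (ENNReal.ofReal_le_ofReal (by linarith [le_abs_self C]))
    have h6 : (shortestDense (frontier K) ε).toReal ≤ B / (2 * ε) + |C| :=
      ENNReal.toReal_le_of_le_ofReal (by positivity) h5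
    calc ε * (shortestDense (frontier K) ε).toReal ≤ ε * (B / (2 * ε) + |C|) := by gcongr
      _ = B / 2 + |C| * ε := by field_simp
      _ < b := h3

end Pool.Agent.Results.MP_523900_gt.Limit
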